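import Mathlib

/-!
# The space H¹ and the mean-field functional

`Geo M` collects what is needed to write down the functional on a compact space `M`: the smooth
functions, the pointwise inner product of the gradients, and the volume measure.
-/

open MeasureTheory Set Filter Topology

noncomputable section

namespace Pool.Agent.W787.PS

/-- Smooth functions, inner product of gradients, volume (total volume one). -/
structure Geo (M : Type) [TopologicalSpace M] [MeasurableSpace M] where
  S : Submodule ℝ (M → ℝ)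
  gip : (M → ℝ) → (M → ℝ) → M → ℝ
  vol : Measure M
  vol_univ : vol univ = 1
  cont : ∀ u ∈ S, Continuous u
  const_mem : ∀ c : ℝ, (fun _ => c) ∈ S
  gip_cont : ∀ u ∈ S, ∀ v ∈ S, Continuous (gip u v)
  gip_symm : ∀ u v x, gip u v x = gip v u x
  gip_add : ∀ u ∈ S, ∀ v ∈ S, ∀ w ∈ S, ∀ x, gip (u + v) w x = gip u w x + gip v w x
  gip_smul : ∀ (c : ℝ), ∀ u ∈ S, ∀ v ∈ S, ∀ x, gip (c • u) v x = c * gip u v x
  gip_nonneg : ∀ u ∈ S, ∀ x, 0 ≤ gip u u x
  gip_const : ∀ (c : ℝ), ∀ v ∈ S, ∀ x, gip (fun _ => c) v x = 0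

namespace Geo

variable {M : Type} [TopologicalSpace M] [CompactSpace M] [MeasurableSpace M] [BorelSpace M]
  (G : Geo M)

instance : IsProbabilityMeasure G.vol := ⟨G.vol_univ⟩

/-- Dirichlet form. -/
def dir (u v : M → ℝ) : ℝ := ∫ x, G.gip u v x ∂G.vol

/-- Square of the H¹ norm. -/
def h1sq (u : M → ℝ) : ℝ := ∫ x, u x ^ 2 ∂G.vol + G.dir u u

/-- The smooth functions, to be equipped with the H¹ inner product. -/
def SmH : Type := G.S

instance : AddCommGroup G.SmH := inferInstanceAs (AddCommGroup G.S)
instance : Module ℝ G.SmH := inferInstanceAs (Module ℝ G.S)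

/-- Underlying function. -/
def fn {G : Geo M} (u : G.SmH) : M → ℝ := u.1

theorem fn_mem (u : G.SmH) : fn u ∈ G.S := u.2

theorem fn_add (u v : G.SmH) : fn (u + v) = fn u + fn v := rfl

theorem fn_smul (c : ℝ) (u : G.SmH) : fn (c • u) = c • fn u := rfl

theorem integrable_of_cont {f : M → ℝ} (hf : Continuous f) : Integrable f G.vol :=
  hf.integrable_of_hasCompactSupport (HasCompactSupport.of_compactSpace f)

/-- The H¹ inner product. -/
@[reducible] def core : PreInnerProductSpace.Core ℝ G.SmH where
  inner u v := ∫ x, fn u x * fn v x ∂G.vol + G.dir (fn u) (fn v)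
  conj_inner_symm u v := by
    simp only [conj_trivial, dir]
    congr 1
    · exact integral_congr_ae (Eventually.of_forall fun x => mul_comm _ _)
    · exact integral_congr_ae (Eventually.of_forall fun x => G.gip_symm _ _ x)
  re_inner_nonneg u := by
    simp only [RCLike.re_to_real]
    refine add_nonneg (integral_nonneg fun x => mul_self_nonneg _)
      (integral_nonneg fun x => G.gip_nonneg _ u.2 x)
  add_left u v w := by
    have h1 : ∫ x, fn (u + v) x * fn w x ∂G.vol
        = ∫ x, fn u x * fn w x ∂G.vol + ∫ x, fn v x * fn w x ∂G.vol := by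
      rw [← integral_add]
      · refine integral_congr_ae (Eventually.of_forall fun x => ?_)
        simp only [fn_add, Pi.add_apply]; ring
      · exact G.integrable_of_cont ((G.cont _ u.2).mul (G.cont _ w.2))
      · exact G.integrable_of_cont ((G.cont _ v.2).mul (G.cont _ w.2))
    have h2 : G.dir (fn (u + v)) (fn w) = G.dir (fn u) (fn w) + G.dir (fn v) (fn w) := by
      simp only [dir]
      rw [← integral_add]
      · refine integral_congr_ae (Eventually.of_forall fun x => ?_)
        exact G.gip_add _ u.2 _ v.2 _ w.2 x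
      · exact G.integrable_of_cont (G.gip_cont _ u.2 _ w.2)
      · exact G.integrable_of_cont (G.gip_cont _ v.2 _ w.2)
    rw [h1, h2]; ring
  smul_left u v r := by
    have h1 : ∫ x, fn (r • u) x * fn v x ∂G.vol = r * ∫ x, fn u x * fn v x ∂G.vol := by
      rw [← integral_const_mul]
      refine integral_congr_ae (Eventually.of_forall fun x => ?_)
      simp only [fn_smul, Pi.smul_apply, smul_eq_mul]; ring
    have h2 : G.dir (fn (r • u)) (fn v) = r * G.dir (fn u) (fn v) := by
      simp only [dir]
      rw [← integral_const_mul]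
      exact integral_congr_ae (Eventually.of_forall fun x => G.gip_smul _ _ u.2 _ v.2 x)
    rw [h1, h2]; simp only [conj_trivial]; ring

instance : SeminormedAddCommGroup G.SmH :=
  InnerProductSpace.Core.toSeminormedAddCommGroup (c := G.core)

instance : InnerProductSpace ℝ G.SmH := InnerProductSpace.ofCore G.core

theorem inner_eq (u v : G.SmH) :
    inner ℝ u v = ∫ x, fn u x * fn v x ∂G.vol + G.dir (fn u) (fn v) := rfl

/-- The Hilbert space H¹: completion of the smooth functions. -/
abbrev H1 : Type := UniformSpace.Completion G.SmH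

theorem memLp (u : G.SmH) : MemLp (fn u) 2 G.vol :=
  (G.cont _ u.2).memLp_of_hasCompactSupport (HasCompactSupport.of_compactSpace _)

/-- The inclusion of the smooth functions into L², as a linear map. -/
def toL2l : G.SmH →ₗ[ℝ] Lp ℝ 2 G.vol where
  toFun u := (G.memLp u).toLp (fn u)
  map_add' u v := MemLp.toLp_add (G.memLp u) (G.memLp v)
  map_smul' c u := MemLp.toLp_const_smul c (G.memLp u)

theorem norm_sq (u : G.SmH) :
    ‖u‖ ^ 2 = ∫ x, fn u x ^ 2 ∂G.vol + G.dir (fn u) (fn u) := by
  rw [← real_inner_self_eq_norm_sq, inner_eq]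
  simp only [pow_two]

theorem norm_toL2l (u : G.SmH) : ‖G.toL2l u‖ ^ 2 = ∫ x, fn u x ^ 2 ∂G.vol := by
  rw [← real_inner_self_eq_norm_sq, L2.inner_def]
  refine integral_congr_ae ?_
  filter_upwards [(G.memLp u).coeFn_toLp] with x hx
  have : (G.toL2l u : M → ℝ) x = fn u x := hx
  rw [this]; simp

/-- The inclusion of the smooth functions into L². -/
def toL2s : G.SmH →L[ℝ] Lp ℝ 2 G.vol :=
  G.toL2l.mkContinuous 1 (by
    intro u
    have h0 : (0 : ℝ) ≤ 1 * ‖u‖ := by rw [one_mul]; exact norm_nonneg _
    refine (abs_le_of_sq_le_sq' ?_ h0).2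
    have h3 : 0 ≤ G.dir (fn u) (fn u) := integral_nonneg fun x => G.gip_nonneg _ u.2 x
    rw [one_mul, G.norm_toL2l u, G.norm_sq u]; linarith)

/-- The inclusion of H¹ into L². -/
def toL2 : G.H1 →L[ℝ] Lp ℝ 2 G.vol :=
  G.toL2s.extend (UniformSpace.Completion.toComplL (𝕜 := ℝ) (E := G.SmH))

/-- The mean-field functional on H¹. -/
def J (h : M → ℝ) (lam : ℝ) (u : G.H1) : ℝ :=
  1 / 2 * (‖u‖ ^ 2 - ‖G.toL2 u‖ ^ 2) + lam * (∫ x, G.toL2 u x ∂G.vol)
    - lam * Real.log (∫ x, h x * Real.exp (G.toL2 u x) ∂G.vol)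

end Geo

end Pool.Agent.W787.PS
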