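import Pool.Agent.W787.PS.Riem
import Pool.Agent.W787.PS.Geo

/-!
# The functional on a closed Riemannian surface
-/

open MeasureTheory Set Metric Filter Topology
open scoped ContDiff

noncomputable section

namespace Pool.Agent.W787.PS

namespace RiemSurface

variable {M : Type} [TopologicalSpace M] [MeasurableSpace M] (X : RiemSurface M)

/-- The vector space of smooth functions. -/
def S : Submodule ℝ (M → ℝ) where
  carrier := {u | X.Smooth u}
  add_mem' := fun hu hv i => (hu i).add (hv i)
  zero_mem' := fun _ => contDiffOn_const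
  smul_mem' := fun c _ hu i => (contDiffOn_const (c := c)).mul (hu i)

theorem idx_mem (x : M) : x ∈ (X.chart (X.idx x)).source := Classical.choose_spec (X.cover x)

theorem smooth_cont {u : M → ℝ} (hu : X.Smooth u) : Continuous u := by
  rw [continuous_iff_continuousAt]
  intro x
  set e := X.chart (X.idx x) with he
  have hx : x ∈ e.source := X.idx_mem x
  have h1 : ContinuousOn (u ∘ e.symm) e.target := (hu (X.idx x)).continuousOn
  have h2 : ContinuousAt (u ∘ e.symm) (e x) :=
    h1.continuousAt (e.open_target.mem_nhds (e.map_source hx))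
  have h3 : ContinuousAt ((u ∘ e.symm) ∘ e) x := h2.comp (e.continuousAt hx)
  refine h3.congr ?_
  filter_upwards [e.open_source.mem_nhds hx] with y hy
  simp [e.left_inv hy]

theorem diffAt {u : M → ℝ} (hu : X.Smooth u) (i : X.ι) {x : M} (hx : x ∈ (X.chart i).source) :
    DifferentiableAt ℝ (u ∘ (X.chart i).symm) (X.chart i x) :=
  ((hu i).contDiffAt ((X.chart i).open_target.mem_nhds ((X.chart i).map_source hx))).differentiableAt
    (by simp)

theorem gdotE_add {E F G : ℝ} {f g k : ℂ → ℝ} {z : ℂ} (hf : DifferentiableAt ℝ f z)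
    (hg : DifferentiableAt ℝ g z) :
    gdotE E F G (f + g) k z = gdotE E F G f k z + gdotE E F G g k z := by
  unfold gdotE
  rw [fderiv_add hf hg]
  simp only [ContinuousLinearMap.add_apply]
  ring

theorem gdotE_smul {E F G : ℝ} {f k : ℂ → ℝ} {z : ℂ} (c : ℝ) (hf : DifferentiableAt ℝ f z) :
    gdotE E F G (c • f) k z = c * gdotE E F G f k z := by
  unfold gdotE
  rw [fderiv_const_smul hf]
  simp only [ContinuousLinearMap.smul_apply, smul_eq_mul]
  ring

theorem gdotE_symm (E F G : ℝ) (f g : ℂ → ℝ) (z : ℂ) :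
    gdotE E F G f g z = gdotE E F G g f z := by
  unfold gdotE; ring

theorem gdotE_nonneg {E F G : ℝ} (hE : 0 < E) (hD : 0 < E * G - F ^ 2) (f : ℂ → ℝ) (z : ℂ) :
    0 ≤ gdotE E F G f f z := by
  unfold gdotE
  refine div_nonneg ?_ hD.le
  set a := fderiv ℝ f z 1
  set b := fderiv ℝ f z Complex.I
  have h : 0 ≤ E * (G * (a * a) - F * (a * b + b * a) + E * (b * b)) := by
    nlinarith [sq_nonneg (E * b - F * a), mul_nonneg hD.le (mul_self_nonneg a)]
  exact nonneg_of_mul_nonneg_right (by simpa [mul_comm] using h) hE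

theorem gdotE_const (E F G : ℝ) (c : ℝ) (g : ℂ → ℝ) (z : ℂ) :
    gdotE E F G (fun _ => c) g z = 0 := by
  unfold gdotE
  simp

/-- The transformation rule. -/
theorem gdotE_trans {E F G E' F' G' : ℝ} {L : ℂ →L[ℝ] ℂ} {α β : ℂ →L[ℝ] ℝ}
    (h : ∀ v, qf E' F' G' (L v) = qf E F G v) (hne : E * G - F ^ 2 ≠ 0) :
    (G * (α (L 1) * β (L 1)) - F * (α (L 1) * β (L Complex.I) + α (L Complex.I) * β (L 1))
      + E * (α (L Complex.I) * β (L Complex.I))) / (E * G - F ^ 2)
    = (G' * (α 1 * β 1) - F' * (α 1 * β Complex.I + α Complex.I * β 1)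
      + E' * (α Complex.I * β Complex.I)) / (E' * G' - F' ^ 2) := by
  have ex : ∀ (γ : ℂ →L[ℝ] ℝ) (w : ℂ), γ w = w.re * γ 1 + w.im * γ Complex.I := by
    intro γ w
    rw [← smul_eq_mul, ← smul_eq_mul, ← map_smul, ← map_smul, ← map_add]
    congr 1
    apply Complex.ext <;> simp
  set a := (L 1).re with ha
  set c := (L 1).im with hc
  set b := (L Complex.I).re with hb
  set d := (L Complex.I).im with hd
  have h1 : E' * a ^ 2 + 2 * F' * a * c + G' * c ^ 2 = E := by
    have := h 1
    simpa [qf, ← ha, ← hc] using this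
  have h2 : E' * b ^ 2 + 2 * F' * b * d + G' * d ^ 2 = G := by
    have := h Complex.I
    simpa [qf, ← hb, ← hd] using this
  have h3 : E' * (a + b) ^ 2 + 2 * F' * (a + b) * (c + d) + G' * (c + d) ^ 2 = E + 2 * F + G := by
    have := h (1 + Complex.I)
    rw [map_add] at this
    simpa [qf, ← ha, ← hb, ← hc, ← hd] using this
  have h4 : E' * a * b + F' * (a * d + b * c) + G' * c * d = F := by linarith
  have hdet : E * G - F ^ 2 = (E' * G' - F' ^ 2) * (a * d - b * c) ^ 2 := by
    rw [← h1, ← h2, ← h4]; ring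
  have hne1 : E' * G' - F' ^ 2 ≠ 0 := by
    intro h0; rw [hdet, h0] at hne; simp at hne
  have hne2 : a * d - b * c ≠ 0 := by
    intro h0; rw [hdet, h0] at hne; simp at hne
  rw [ex α (L 1), ex β (L 1), ex α (L Complex.I), ex β (L Complex.I), ← ha, ← hb, ← hc, ← hd,
    hdet, div_eq_div_iff (mul_ne_zero hne1 (pow_ne_zero 2 hne2)) hne1]
  rw [← h1, ← h2, ← h4]
  ring

/-- `gip` can be computed in any chart. -/
theorem gip_any {u v : M → ℝ} (hu : X.Smooth u) (hv : X.Smooth v) (i : X.ι) {x : M}
    (hx : x ∈ (X.chart i).source) :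
    X.gip u v x = gdotE (X.E i (X.chart i x)) (X.F i (X.chart i x)) (X.G i (X.chart i x))
      (u ∘ (X.chart i).symm) (v ∘ (X.chart i).symm) (X.chart i x) := by
  set j := X.idx x with hj
  have hxj : x ∈ (X.chart j).source := X.idx_mem x
  set z := X.chart i x with hz
  set T : ℂ → ℂ := X.chart j ∘ (X.chart i).symm with hT
  have hzs : z ∈ ((X.chart i).symm.trans (X.chart j)).source := by
    rw [OpenPartialHomeomorph.trans_source]
    refine ⟨(X.chart i).map_source hx, ?_⟩
    simp only [mem_preimage]
    rw [hz, (X.chart i).left_inv hx]; exact hxj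
  have hTz : T z = X.chart j x := by simp [hT, hz, (X.chart i).left_inv hx]
  have hTd : DifferentiableAt ℝ T z :=
    ((X.trans_smooth i j).contDiffAt
      (((X.chart i).symm.trans (X.chart j)).open_source.mem_nhds hzs)).differentiableAt (by simp)
  have key : ∀ w : M → ℝ, X.Smooth w → fderiv ℝ (w ∘ (X.chart i).symm) z
      = (fderiv ℝ (w ∘ (X.chart j).symm) (X.chart j x)).comp (fderiv ℝ T z) := by
    intro w hw
    have h1 : (w ∘ (X.chart i).symm) =ᶠ[𝓝 z] (w ∘ (X.chart j).symm) ∘ T := by
      filter_upwards [((X.chart i).symm.trans (X.chart j)).open_source.mem_nhds hzs] with y hy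
      rw [OpenPartialHomeomorph.trans_source] at hy
      simp only [Function.comp, hT]
      rw [(X.chart j).left_inv hy.2]
    rw [h1.fderiv_eq, ← hTz]
    exact fderiv_comp z (by rw [hTz]; exact X.diffAt hw j hxj) hTd
  have hiso := X.trans_isom i j z hzs
  have hzz : (X.chart i).symm z = x := by rw [hz, (X.chart i).left_inv hx]
  rw [hzz] at hiso
  have hpos := X.pos i z ((X.chart i).map_source hx)
  unfold gip gdotE
  rw [← hj, key u hu, key v hv]
  simp only [ContinuousLinearMap.comp_apply]
  exact (gdotE_trans hiso hpos.2.ne').symm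

theorem gip_continuous {u v : M → ℝ} (hu : X.Smooth u) (hv : X.Smooth v) :
    Continuous (X.gip u v) := by
  rw [continuous_iff_continuousAt]
  intro x
  set i := X.idx x with hi
  have hx : x ∈ (X.chart i).source := X.idx_mem x
  set z := X.chart i x with hz
  have hzt : z ∈ (X.chart i).target := (X.chart i).map_source hx
  have hn := (X.chart i).open_target.mem_nhds hzt
  have hD : ∀ w : M → ℝ, X.Smooth w → ∀ e : ℂ,
      ContinuousAt (fun y => fderiv ℝ (w ∘ (X.chart i).symm) y e) z := by
    intro w hw e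
    have h1 : ContinuousOn (fderiv ℝ (w ∘ (X.chart i).symm)) (X.chart i).target :=
      (hw i).continuousOn_fderiv_of_isOpen (X.chart i).open_target (by simp)
    exact (h1.continuousAt hn).clm_apply continuousAt_const
  have hE := ((X.E_smooth i).continuousOn.continuousAt hn)
  have hF := ((X.F_smooth i).continuousOn.continuousAt hn)
  have hG := ((X.G_smooth i).continuousOn.continuousAt hn)
  have hpos := X.pos i z hzt
  have h2 : ContinuousAt (fun y => gdotE (X.E i y) (X.F i y) (X.G i y) (u ∘ (X.chart i).symm)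
      (v ∘ (X.chart i).symm) y) z := by
    unfold gdotE
    refine ContinuousAt.div ?_ ((hE.mul hG).sub (hF.pow 2)) hpos.2.ne'
    exact ((hG.mul ((hD u hu 1).mul (hD v hv 1))).sub
      (hF.mul (((hD u hu 1).mul (hD v hv Complex.I)).add
        ((hD u hu Complex.I).mul (hD v hv 1))))).add
      (hE.mul ((hD u hu Complex.I).mul (hD v hv Complex.I)))
  have h3 := ContinuousAt.comp (f := X.chart i) (x := x) h2 ((X.chart i).continuousAt hx)
  refine h3.congr ?_
  filter_upwards [(X.chart i).open_source.mem_nhds hx] with y hy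
  rw [X.gip_any hu hv i hy]; rfl

variable [CompactSpace M] [BorelSpace M]

open Classical in
/-- Smooth functions, inner product of gradients (of smooth functions) and volume of a closed
Riemannian surface. -/
def geo : Geo M where
  S := X.S
  gip := fun u v x => if X.Smooth u ∧ X.Smooth v then X.gip u v x else 0
  vol := X.vol
  vol_univ := X.vol_univ
  cont := fun _ hu => X.smooth_cont hu
  const_mem := fun _ _ => contDiffOn_const
  gip_cont := fun u hu v hv => by
    have : X.Smooth u ∧ X.Smooth v := ⟨hu, hv⟩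
    simp only [this, and_self, if_true]
    exact X.gip_continuous hu hv
  gip_symm := fun u v x => by
    by_cases h : X.Smooth u ∧ X.Smooth v
    · rw [if_pos h, if_pos h.symm]; exact gdotE_symm _ _ _ _ _ _
    · rw [if_neg h, if_neg fun h' => h h'.symm]
  gip_add := fun u hu v hv w hw x => by
    have hu' : X.Smooth u := hu
    have hv' : X.Smooth v := hv
    have hw' : X.Smooth w := hw
    have huv : X.Smooth (u + v) := X.S.add_mem hu hv
    rw [if_pos ⟨huv, hw'⟩, if_pos ⟨hu', hw'⟩, if_pos ⟨hv', hw'⟩]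
    exact gdotE_add (X.diffAt hu' _ (X.idx_mem x)) (X.diffAt hv' _ (X.idx_mem x))
  gip_smul := fun c u hu v hv x => by
    have hu' : X.Smooth u := hu
    have hv' : X.Smooth v := hv
    have hcu : X.Smooth (c • u) := X.S.smul_mem c hu
    rw [if_pos ⟨hcu, hv'⟩, if_pos ⟨hu', hv'⟩]
    exact gdotE_smul c (X.diffAt hu' _ (X.idx_mem x))
  gip_nonneg := fun u hu x => by
    have hu' : X.Smooth u := hu
    rw [if_pos ⟨hu', hu'⟩]
    have hp := X.pos _ _ ((X.chart (X.idx x)).map_source (X.idx_mem x))
    exact gdotE_nonneg hp.1 hp.2 _ _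
  gip_const := fun c v hv x => by
    have hv' : X.Smooth v := hv
    have hc : X.Smooth (fun _ => c) := fun _ => contDiffOn_const
    rw [if_pos ⟨hc, hv'⟩]
    exact gdotE_const _ _ _ _ _ _

end RiemSurface

end Pool.Agent.W787.PS
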