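import Pool.Agent.W787.PS.Geo

/-!
# Project PS: exact statements of the steps in the space H¹
-/

open MeasureTheory Set Filter Topology

noncomputable section

namespace Pool.Agent.W787.PS

section

variable {M : Type} [TopologicalSpace M] [CompactSpace M] [MeasurableSpace M] [BorelSpace M]

/-- Smooth, normalised, derivative of the functional at most `ε` on smooth functions. -/
def PSg (G : Geo M) (h : M → ℝ) (lam ε : ℝ) (u : M → ℝ) : Prop :=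
  u ∈ G.S ∧ ∫ x, h x * Real.exp (u x) ∂G.vol = 1 ∧
  ∀ φ ∈ G.S, |G.dir u φ + lam * (∫ x, φ x ∂G.vol)
    - lam * (∫ x, h x * Real.exp (u x) * φ x ∂G.vol)| ≤ ε * Real.sqrt (G.h1sq φ)

/-- L⁴ Sobolev inequality for smooth functions. -/
def L4g (G : Geo M) : Prop :=
  ∃ C : ℝ, 0 < C ∧ ∀ u ∈ G.S, ∫ x, u x ^ 4 ∂G.vol ≤ C * G.h1sq u ^ 2

/-- Exponential integrability for smooth functions of small norm. -/
def MTg (G : Geo M) : Prop :=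
  ∀ q : ℝ, 0 < q → ∃ ε C : ℝ, 0 < ε ∧ 0 < C ∧ ∀ u ∈ G.S, G.h1sq u ≤ ε ^ 2 →
    ∫ x, Real.exp (q * |u x|) ∂G.vol ≤ C

/-- Palais-Smale property for smooth sequences, along ultrafilters. -/
def PSSg (G : Geo M) (h : M → ℝ) (lam : ℝ) : Prop :=
  ∀ (𝒰 : Ultrafilter ℕ) (u : ℕ → M → ℝ),
  (∀ ε : ℝ, 0 < ε → ∀ᶠ n in (𝒰 : Filter ℕ), PSg G h lam ε (u n)) →
  ∀ ε : ℝ, 0 < ε → ∃ T ∈ (𝒰 : Filter ℕ), ∀ n ∈ T, ∀ m ∈ T,
    G.h1sq (fun x => u n x - u m x) ≤ ε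

/-- Exponential and L⁴ integrability of the elements of H¹. -/
def EXA (G : Geo M) : Prop :=
  (∀ q : ℝ, 0 < q → ∃ ε C : ℝ, 0 < ε ∧ 0 < C ∧ ∀ U : G.H1, ‖U‖ ≤ ε →
    Integrable (fun x => Real.exp (q * |G.toL2 U x|)) G.vol ∧
    ∫ x, Real.exp (q * |G.toL2 U x|) ∂G.vol ≤ C) ∧
  (∃ C : ℝ, 0 < C ∧ ∀ U : G.H1, Integrable (fun x => G.toL2 U x ^ 4) G.vol ∧
    ∫ x, G.toL2 U x ^ 4 ∂G.vol ≤ C * ‖U‖ ^ 4) ∧
  (∀ (U : G.H1) (q : ℝ), Integrable (fun x => Real.exp (q * |G.toL2 U x|)) G.vol)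

/-- Approximation by smooth functions in H¹ together with the exponentials in L². -/
def APX (G : Geo M) : Prop :=
  ∀ (U : G.H1) (η : ℝ), 0 < η → ∃ u : G.SmH, ‖(u : G.H1) - U‖ ≤ η ∧
    ∫ x, (Real.exp (Geo.fn u x) - Real.exp (G.toL2 U x)) ^ 2 ∂G.vol ≤ η ^ 2

/-- The functional is differentiable, with the expected derivative on smooth functions. -/
def DER (G : Geo M) (h : M → ℝ) (lam : ℝ) : Prop :=
  ∀ U : G.H1, ∃ D : G.H1 →L[ℝ] ℝ, HasFDerivAt (G.J h lam) D U ∧ ∀ φ : G.SmH,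
    D (φ : G.H1) = inner ℝ U (φ : G.H1) - inner ℝ (G.toL2 U) (G.toL2 (φ : G.H1))
      + lam * (∫ x, Geo.fn φ x ∂G.vol)
      - lam * (∫ x, h x * Real.exp (G.toL2 U x) * Geo.fn φ x ∂G.vol)
          / (∫ x, h x * Real.exp (G.toL2 U x) ∂G.vol)

/-- The functional is differentiable and has the Palais-Smale property. -/
def PSP (G : Geo M) (h : M → ℝ) (lam : ℝ) : Prop :=
  Differentiable ℝ (G.J h lam) ∧
  ∀ U : ℕ → G.H1, (∀ n, ∫ x, h x * Real.exp (G.toL2 (U n) x) ∂G.vol = 1) →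
    (∃ c : ℝ, Tendsto (fun n => G.J h lam (U n)) atTop (𝓝 c)) →
    Tendsto (fun n => fderiv ℝ (G.J h lam) (U n)) atTop (𝓝 0) →
    ∃ (V : G.H1) (φ : ℕ → ℕ), StrictMono φ ∧ Tendsto (fun k => U (φ k)) atTop (𝓝 V)

end

def S_H1Z : Prop := ∀ (M : Type) [TopologicalSpace M] [CompactSpace M] [MeasurableSpace M]
  [BorelSpace M] (G : Geo M), (∀ u : G.SmH, G.toL2 (u : G.H1) = (G.memLp u).toLp (Geo.fn u)) ∧
  (∀ U : G.H1, ‖G.toL2 U‖ ≤ ‖U‖) ∧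
  (∀ u : G.SmH, ‖(u : G.H1)‖ ^ 2 = G.h1sq (Geo.fn u)) ∧
  (∀ u v : G.SmH, inner ℝ (u : G.H1) (v : G.H1)
    = (∫ x, Geo.fn u x * Geo.fn v x ∂G.vol) + G.dir (Geo.fn u) (Geo.fn v)) ∧
  (∀ U : G.H1, ∃ u : ℕ → G.SmH, Tendsto (fun k => ((u k : G.SmH) : G.H1)) atTop (𝓝 U) ∧
    ∀ᵐ x ∂G.vol, Tendsto (fun k => Geo.fn (u k) x) atTop (𝓝 (G.toL2 U x)))

def S_H1A : Prop := ∀ (M : Type) [TopologicalSpace M] [CompactSpace M] [MeasurableSpace M]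
  [BorelSpace M] (G : Geo M), L4g G → MTg G → EXA G

def S_H1B : Prop := ∀ (M : Type) [TopologicalSpace M] [CompactSpace M] [MeasurableSpace M]
  [BorelSpace M] (G : Geo M), EXA G → APX G

def S_H1C : Prop := ∀ (M : Type) [TopologicalSpace M] [CompactSpace M] [MeasurableSpace M]
  [BorelSpace M] (G : Geo M) (h : M → ℝ) (lam : ℝ), EXA G → Continuous h → (∀ x, 0 < h x) →
  DER G h lam

def S_H1D : Prop := ∀ (M : Type) [TopologicalSpace M] [CompactSpace M] [MeasurableSpace M]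
  [BorelSpace M] (G : Geo M) (h : M → ℝ) (lam : ℝ), EXA G → APX G → Continuous h →
  (∀ x, 0 < h x) → DER G h lam → PSSg G h lam → PSP G h lam

end Pool.Agent.W787.PS
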