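import Pool.Agent.W787.PS.Pres
import Pool.Agent.W787.PS.RGeo
import Pool.Agent.W787.PS.StmC
import Pool.Agent.W11.PS.H1Z

/-!
# Transfer to an arbitrary model of `H¹(M)`
-/

open MeasureTheory Filter Topology

noncomputable section

namespace Pool.Agent.W787.PS

section Abstract

variable {V A H : Type} [AddCommGroup V] [Module ℝ V] [NormedAddCommGroup A]
  [InnerProductSpace ℝ A] [NormedAddCommGroup H] [InnerProductSpace ℝ H]

theorem iso_of_inner [CompleteSpace A] [CompleteSpace H] (a : V →ₗ[ℝ] A) (ha : DenseRange a)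
    (b : V → H) (hb : DenseRange b) (hab : ∀ u v, inner ℝ (b u) (b v) = inner ℝ (a u) (a v)) :
    ∃ T : A ≃ₗᵢ[ℝ] H, ∀ v, T (a v) = b v := by
  have hadd : ∀ u v, b (u + v) = b u + b v := by
    intro u v
    rw [← sub_eq_zero, ← inner_self_eq_zero (𝕜 := ℝ)]
    simp only [inner_sub_left, inner_sub_right, inner_add_left, inner_add_right, hab, map_add]
    ring
  have hsmul : ∀ (c : ℝ) u, b (c • u) = c • b u := by
    intro c u
    rw [← sub_eq_zero, ← inner_self_eq_zero (𝕜 := ℝ)]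
    simp only [inner_sub_left, inner_sub_right, inner_smul_left, inner_smul_right, hab, map_smul,
      conj_trivial]
    ring
  let B : V →ₗ[ℝ] H := { toFun := b, map_add' := hadd, map_smul' := hsmul }
  have hn : ∀ x, ‖B ((LinearEquiv.refl ℝ V) x)‖ = ‖a x‖ := by
    intro x
    have h1 : ‖b x‖ ^ 2 = ‖a x‖ ^ 2 := by
      rw [← real_inner_self_eq_norm_sq, ← real_inner_self_eq_norm_sq, hab]
    have h2 : ‖b x‖ = ‖a x‖ := by
      rwa [sq_eq_sq₀ (norm_nonneg _) (norm_nonneg _)] at h1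
    exact h2
  refine ⟨(LinearEquiv.refl ℝ V).extendOfIsometry a B ha hb hn, fun v => ?_⟩
  exact LinearEquiv.extendOfIsometry_eq (f := LinearEquiv.refl ℝ V) (e₁ := a) (e₂ := B) ha hb hn v

theorem transfer_abs (T : A ≃ₗᵢ[ℝ] H) {JA : A → ℝ} {JH : H → ℝ} (hJ : ∀ u, JH (T u) = JA u)
    (hd : Differentiable ℝ JA) :
    Differentiable ℝ JH ∧ ∀ u, ‖fderiv ℝ JH (T u)‖ = ‖fderiv ℝ JA u‖ := by
  have hJ' : JH = JA ∘ T.symm := by
    funext u
    have := hJ (T.symm u)
    rw [T.apply_symm_apply] at this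
    exact this
  refine ⟨?_, fun u => ?_⟩
  · rw [hJ']
    exact hd.comp T.symm.toContinuousLinearEquiv.differentiable
  · have h1 : fderiv ℝ JH (T u) = (fderiv ℝ JA u).comp
        (T.symm.toContinuousLinearEquiv : H →L[ℝ] A) := by
      rw [hJ']
      have := fderiv_comp (T u) (g := JA) (f := T.symm) (hd _)
        (T.symm.toContinuousLinearEquiv.differentiable _)
      rw [this, T.symm_apply_apply]
      congr 1
      exact T.symm.toContinuousLinearEquiv.fderiv
    rw [h1]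
    exact ContinuousLinearMap.opNorm_comp_linearIsometryEquiv (fderiv ℝ JA u) T.symm

end Abstract

namespace Sobolev

variable {M : Type} [TopologicalSpace M] [CompactSpace M] [MeasurableSpace M] [BorelSpace M]
  {X : RiemSurface M}

open Classical in
theorem dir_geo {f g : M → ℝ} (hf : X.Smooth f) (hg : X.Smooth g) :
    X.geo.dir f g = ∫ x, X.gip f g x ∂X.vol := by
  show ∫ x, (if X.Smooth f ∧ X.Smooth g then X.gip f g x else 0) ∂X.vol = _
  simp only [hf, hg, and_self, if_true]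

theorem inner_geo (u v : X.geo.SmH) : inner ℝ (u : X.geo.H1) (v : X.geo.H1)
    = (∫ x, Geo.fn u x * Geo.fn v x ∂X.vol) + ∫ x, X.gip (Geo.fn u) (Geo.fn v) x ∂X.vol := by
  have hu : X.Smooth (Geo.fn u) := u.2
  have hv : X.Smooth (Geo.fn v) := v.2
  rw [(Pool.Agent.W11.PSH.h1z M X.geo).2.2.2.1 u v, dir_geo hu hv]
  rfl

theorem integral_toL2_sq (u : X.geo.H1) :
    ∫ x, X.geo.toL2 u x ^ 2 ∂X.vol = ‖X.geo.toL2 u‖ ^ 2 := by
  rw [← real_inner_self_eq_norm_sq, L2.inner_def]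
  refine integral_congr_ae (Eventually.of_forall fun x => ?_)
  show X.geo.toL2 u x ^ 2 = inner ℝ (X.geo.toL2 u x) (X.geo.toL2 u x)
  rw [real_inner_self_eq_norm_sq, Real.norm_eq_abs, sq_abs]

/-- The element of `H¹` given by a smooth function. -/
def mkSm (X : RiemSurface M) (f : M → ℝ) (hf : X.Smooth f) : X.geo.SmH := (⟨f, hf⟩ : X.geo.S)

/-- The completion of the smooth functions is a model of `H¹(M)`. -/
def model (X : RiemSurface M) : Sobolev X X.geo.H1 where
  complete := inferInstance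
  emb f := open Classical in if hf : X.Smooth f then (mkSm X f hf : X.geo.H1) else 0
  inner_emb f g hf hg := by
    rw [dif_pos hf, dif_pos hg]
    exact inner_geo _ _
  dense u ε hε := by
    obtain ⟨v, hv⟩ := Metric.denseRange_iff.1
      (UniformSpace.Completion.denseRange_coe (α := X.geo.SmH)) u ε hε
    refine ⟨Geo.fn v, v.2, ?_⟩
    have : X.Smooth (Geo.fn v) := v.2
    rw [dif_pos this, ← dist_eq_norm]
    exact hv
  rep u := fun x => X.geo.toL2 u x
  memLp u := Lp.memLp _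
  rep_emb f hf := by
    rw [dif_pos hf, (Pool.Agent.W11.PSH.h1z M X.geo).1]
    exact MemLp.coeFn_toLp _
  rep_le u v := by
    have h1 : ∫ x, (X.geo.toL2 u x - X.geo.toL2 v x) ^ 2 ∂X.vol = ‖X.geo.toL2 (u - v)‖ ^ 2 := by
      rw [← integral_toL2_sq, map_sub]
      refine integral_congr_ae ?_
      filter_upwards [Lp.coeFn_sub (X.geo.toL2 u) (X.geo.toL2 v)] with x hx
      rw [hx]; rfl
    rw [h1]
    exact pow_le_pow_left₀ (norm_nonneg _) ((Pool.Agent.W11.PSH.h1z M X.geo).2.1 _) 2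

variable {H : Type} [NormedAddCommGroup H] [InnerProductSpace ℝ H] (m : Sobolev X H)

theorem exists_iso : ∃ T : X.geo.H1 ≃ₗᵢ[ℝ] H,
    ∀ v : X.geo.SmH, T (v : X.geo.H1) = m.emb (Geo.fn v) := by
  haveI := m.complete
  refine iso_of_inner
    (a := (UniformSpace.Completion.toComplL (𝕜 := ℝ) (E := X.geo.SmH)).toLinearMap)
    (UniformSpace.Completion.denseRange_coe (α := X.geo.SmH)) (fun v => m.emb (Geo.fn v)) ?_ ?_
  · rw [Metric.denseRange_iff]
    intro u ε hε
    obtain ⟨f, hf, hlt⟩ := m.dense u ε hε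
    refine ⟨mkSm X f hf, ?_⟩
    rw [dist_eq_norm]
    exact hlt
  · intro u v
    have hu : X.Smooth (Geo.fn u) := u.2
    have hv : X.Smooth (Geo.fn v) := v.2
    rw [m.inner_emb _ _ hu hv]
    exact (inner_geo u v).symm

/-- The class of `rep u` in `L²`. -/
def cls (u : H) : Lp ℝ 2 X.geo.vol :=
  MemLp.toLp (m.rep u) (show MemLp (m.rep u) 2 X.geo.vol from m.memLp u)

theorem cls_sub (u v : H) : ‖m.cls u - m.cls v‖ ≤ ‖u - v‖ := by
  have h1 : ‖m.cls u - m.cls v‖ ^ 2 = ∫ x, (m.rep u x - m.rep v x) ^ 2 ∂X.geo.vol := by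
    rw [← real_inner_self_eq_norm_sq, L2.inner_def]
    refine integral_congr_ae ?_
    filter_upwards [Lp.coeFn_sub (m.cls u) (m.cls v),
      MemLp.coeFn_toLp (show MemLp (m.rep u) 2 X.geo.vol from m.memLp u),
      MemLp.coeFn_toLp (show MemLp (m.rep v) 2 X.geo.vol from m.memLp v)] with x hx hu hv
    have hu' : m.cls u x = m.rep u x := hu
    have hv' : m.cls v x = m.rep v x := hv
    rw [hx, Pi.sub_apply, hu', hv', real_inner_self_eq_norm_sq, Real.norm_eq_abs, sq_abs]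
  have h2 : ∫ x, (m.rep u x - m.rep v x) ^ 2 ∂X.geo.vol ≤ ‖u - v‖ ^ 2 := m.rep_le u v
  rw [← h1] at h2
  exact (abs_le_of_sq_le_sq' h2 (norm_nonneg _)).2

theorem cls_iso (T : X.geo.H1 ≃ₗᵢ[ℝ] H)
    (hT : ∀ v : X.geo.SmH, T (v : X.geo.H1) = m.emb (Geo.fn v)) (u : X.geo.H1) :
    m.cls (T u) = X.geo.toL2 u := by
  rw [← sub_eq_zero, ← norm_le_zero_iff]
  refine le_of_forall_pos_le_add fun ε hε => ?_
  obtain ⟨v, hv⟩ := Metric.denseRange_iff.1
    (UniformSpace.Completion.denseRange_coe (α := X.geo.SmH)) u (ε / 2) (half_pos hε)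
  have hv0 : ‖u - (v : X.geo.H1)‖ < ε / 2 := by rw [← dist_eq_norm]; exact hv
  have h1 : ‖m.cls (T u) - m.cls (T (v : X.geo.H1))‖ ≤ ‖u - (v : X.geo.H1)‖ := by
    refine (m.cls_sub _ _).trans_eq ?_
    rw [← map_sub, T.norm_map]
  have h2 : m.cls (T (v : X.geo.H1)) = X.geo.toL2 (v : X.geo.H1) := by
    rw [(Pool.Agent.W11.PSH.h1z M X.geo).1, hT]
    exact MemLp.toLp_congr _ _ (m.rep_emb _ v.2)
  have h3 : ‖X.geo.toL2 (v : X.geo.H1) - X.geo.toL2 u‖ ≤ ‖u - (v : X.geo.H1)‖ := by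
    rw [← map_sub]
    refine ((Pool.Agent.W11.PSH.h1z M X.geo).2.1 _).trans_eq ?_
    exact norm_sub_rev _ _
  have h4 : m.cls (T u) - X.geo.toL2 u = (m.cls (T u) - m.cls (T (v : X.geo.H1)))
      + (X.geo.toL2 (v : X.geo.H1) - X.geo.toL2 u) := by
    rw [h2]; abel
  rw [h4]
  refine (norm_add_le _ _).trans ?_
  linarith

theorem rep_iso (T : X.geo.H1 ≃ₗᵢ[ℝ] H)
    (hT : ∀ v : X.geo.SmH, T (v : X.geo.H1) = m.emb (Geo.fn v)) (u : X.geo.H1) :
    ∀ᵐ x ∂X.vol, m.rep (T u) x = X.geo.toL2 u x := by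
  have h0 := m.cls_iso T hT u
  show ∀ᵐ x ∂X.geo.vol, m.rep (T u) x = X.geo.toL2 u x
  rw [← h0]
  filter_upwards [MemLp.coeFn_toLp (show MemLp (m.rep (T u)) 2 X.geo.vol from m.memLp (T u))]
    with x hx
  exact hx.symm

theorem J_iso (T : X.geo.H1 ≃ₗᵢ[ℝ] H)
    (hT : ∀ v : X.geo.SmH, T (v : X.geo.H1) = m.emb (Geo.fn v)) (h : M → ℝ) (lam : ℝ)
    (u : X.geo.H1) : m.J h lam (T u) = X.geo.J h lam u := by
  have hr := m.rep_iso T hT u
  have h1 : ∫ x, m.rep (T u) x ^ 2 ∂X.vol = ‖X.geo.toL2 u‖ ^ 2 := by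
    rw [← integral_toL2_sq]
    refine integral_congr_ae ?_
    filter_upwards [hr] with x hx
    rw [hx]
  have h2 : ∫ x, m.rep (T u) x ∂X.vol = ∫ x, X.geo.toL2 u x ∂X.vol := integral_congr_ae hr
  have h3 : ∫ x, h x * Real.exp (m.rep (T u) x) ∂X.vol
      = ∫ x, h x * Real.exp (X.geo.toL2 u x) ∂X.vol := by
    refine integral_congr_ae ?_
    filter_upwards [hr] with x hx
    rw [hx]
  rw [J, energy, h1, h2, h3, T.norm_map]
  rfl

theorem tendsto_zero_of_norm {E : Type} [NormedAddCommGroup E] [NormedSpace ℝ E]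
    (V : ℕ → (E →L[ℝ] ℝ)) (h : Tendsto (fun n => ‖V n‖) atTop (𝓝 0)) : Tendsto V atTop (𝓝 0) :=
  tendsto_zero_iff_norm_tendsto_zero.2 h

theorem transfer {h : M → ℝ} {lam : ℝ} (hE : EXA X.geo) (hP : PSP X.geo h lam) :
    (∀ u, Integrable (fun x => Real.exp (m.rep u x)) X.vol) ∧
      Differentiable ℝ (m.J h lam) ∧ m.PalaisSmale h lam := by
  obtain ⟨T, hT⟩ := m.exists_iso
  obtain ⟨hd, hps⟩ := hP
  obtain ⟨h1, h2⟩ := transfer_abs T (m.J_iso T hT h lam) hd
  refine ⟨?_, h1, ?_⟩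
  · intro u
    have hr := m.rep_iso T hT (T.symm u)
    rw [T.apply_symm_apply] at hr
    have h3 : Integrable (fun x => Real.exp (X.geo.toL2 (T.symm u) x)) X.vol := by
      refine (hE.2.2 (T.symm u) 1).mono' ?_ (Eventually.of_forall fun x => ?_)
      · exact Real.continuous_exp.comp_aestronglyMeasurable (Lp.aestronglyMeasurable _)
      · rw [Real.norm_eq_abs, abs_of_pos (Real.exp_pos _), one_mul]
        exact Real.exp_le_exp.2 (le_abs_self _)
    refine h3.congr ?_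
    filter_upwards [hr] with x hx
    rw [hx]
  · intro U hU hc hd0
    have hUT : ∀ n, T (T.symm (U n)) = U n := fun n => T.apply_symm_apply _
    have e1 : ∀ n, ∫ x, h x * Real.exp (X.geo.toL2 (T.symm (U n)) x) ∂X.geo.vol = 1 := by
      intro n
      have hr := m.rep_iso T hT (T.symm (U n))
      rw [hUT] at hr
      rw [← hU n]
      show ∫ x, h x * Real.exp (X.geo.toL2 (T.symm (U n)) x) ∂X.vol = _
      refine integral_congr_ae ?_
      filter_upwards [hr] with x hx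
      rw [hx]
    have e2 : ∃ c : ℝ, Tendsto (fun n => X.geo.J h lam (T.symm (U n))) atTop (𝓝 c) := by
      obtain ⟨c, hc⟩ := hc
      refine ⟨c, hc.congr fun n => ?_⟩
      rw [← m.J_iso T hT h lam, hUT]
    have e3 : Tendsto (fun n => fderiv ℝ (X.geo.J h lam) (T.symm (U n))) atTop (𝓝 0) := by
      refine tendsto_zero_of_norm _ (hd0.congr fun n => ?_)
      rw [← h2, hUT]
    obtain ⟨V, φ, hφ, hV⟩ := hps (fun n => T.symm (U n)) e1 e2 e3
    refine ⟨T V, φ, hφ, ?_⟩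
    have := (T.continuous.tendsto V).comp hV
    refine this.congr fun k => ?_
    exact hUT (φ k)

end Sobolev

end Pool.Agent.W787.PS
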