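import Mathlib

/-!
# Project PS: definitions for the planar part
-/

open MeasureTheory Set Metric Filter Topology

noncomputable section

namespace Pool.Agent.W787.PS

/-- Squared length of the gradient of a real function on the plane. -/
def nsq (f : ℂ → ℝ) (x : ℂ) : ℝ := (fderiv ℝ f x 1) ^ 2 + (fderiv ℝ f x Complex.I) ^ 2

/-- Dot product of two gradients. -/
def gdot (f g : ℂ → ℝ) (x : ℂ) : ℝ :=
  fderiv ℝ f x 1 * fderiv ℝ g x 1 + fderiv ℝ f x Complex.I * fderiv ℝ g x Complex.I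

/-- Logarithmic potential of a density. -/
def pot (ρ : ℂ → ℝ) (x : ℂ) : ℝ := -(1 / (2 * Real.pi)) * ∫ y, Real.log ‖x - y‖ * ρ y

/-- Average over a ball. -/
def avg (f : ℂ → ℝ) (a : ℂ) (r : ℝ) : ℝ := (Real.pi * r ^ 2)⁻¹ * ∫ x in ball a r, f x

/-- A datum: a density `ρ` of total mass at most `Λ` which on the disc of radius `R` equals
`exp (pot ρ + g + w)` with `|∇g| ≤ L` and with Dirichlet energy of `w` at most `ε ^ 2`. -/
structure IsDatum (Λ R L ε : ℝ) (ρ g w : ℂ → ℝ) : Prop where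
  diff : ContDiff ℝ 1 ρ
  supp : HasCompactSupport ρ
  nonneg : ∀ x, 0 ≤ ρ x
  mass : ∫ x, ρ x ≤ Λ
  g_diff : ContDiffOn ℝ 1 g (ball 0 R)
  g_grad : ∀ x ∈ ball (0 : ℂ) R, nsq g x ≤ L ^ 2
  w_diff : ContDiffOn ℝ 1 w (ball 0 R)
  w_int : IntegrableOn (nsq w) (ball 0 R)
  w_en : ∫ x in ball (0 : ℂ) R, nsq w x ≤ ε ^ 2
  eq : ∀ x ∈ ball (0 : ℂ) R, ρ x = Real.exp (pot ρ x + g x + w x)

/-- Sequences of data on a fixed disc with energy of `w` tending to zero along the ultrafilter. -/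
def IsSeq (𝒰 : Ultrafilter ℕ) (Λ R L : ℝ) (ρ g w : ℕ → ℂ → ℝ) : Prop :=
  ∀ ε : ℝ, 0 < ε → ∀ᶠ n in (𝒰 : Filter ℕ), IsDatum Λ R L ε (ρ n) (g n) (w n)

/-- Blow-up sequences of data: radius to infinity, gradient bound of `g` to zero. -/
def IsBlow (𝒰 : Ultrafilter ℕ) (Λ : ℝ) (ρ g w : ℕ → ℂ → ℝ) : Prop :=
  ∀ R L ε : ℝ, 0 < R → 0 < L → 0 < ε →
    ∀ᶠ n in (𝒰 : Filter ℕ), IsDatum Λ R L ε (ρ n) (g n) (w n)

/-- Mass of a ball. -/
def ms (ρ : ℂ → ℝ) (a : ℂ) (r : ℝ) : ℝ := ∫ x in ball a r, ρ x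

/-- Rescaled density. -/
def scρ (ρ : ℂ → ℝ) (a : ℂ) (s : ℝ) (y : ℂ) : ℝ := s ^ 2 * ρ (a + s * y)

/-- Rescaled Lipschitz part. -/
def scg (ρ g : ℂ → ℝ) (a : ℂ) (s : ℝ) (y : ℂ) : ℝ :=
  g (a + s * y) + 2 * Real.log s - Real.log s / (2 * Real.pi) * ∫ x, ρ x

/-- Rescaled small part. -/
def scw (w : ℂ → ℝ) (a : ℂ) (s : ℝ) (y : ℂ) : ℝ := w (a + s * y)

end Pool.Agent.W787.PS
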