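import Pool.Agent.W451.PS.EXPC
import Pool.Agent.W253.PS.Poi
import Pool.Agent.W933.PS.W1
import Pool.Agent.W140.PS.W23
import Pool.Agent.W395.PS.K1
import Pool.Agent.W347.PS.Poti
import Pool.Agent.W67.PS.POTD
import Pool.Agent.W790.PS.FS
import Pool.Agent.W490.PS.Bmj
import Pool.Agent.W636.PS.Scal
import Pool.Agent.W303.PS.RJ
import Pool.Agent.W11.PS.RJS
import Pool.Agent.W392.PS.MC
import Pool.Agent.W55.PS.NK
import Pool.Agent.W18.PS.Vir
import Pool.Agent.W414.PS.Reg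
import Pool.Agent.W597.PS.Ami
import Pool.Agent.W311.PS.Abs
import Pool.Agent.W168.PSL.SEL
import Pool.Agent.W18.PS.Lq
import Pool.Agent.W638.PS.Core

/-!
# Project PS: assembly of the planar part
-/

namespace Pool.Agent.W787.PS.Asm

open Pool.Agent.W787.PS

theorem t_poti : S_POTI := Pool.Agent.W347.PS.both.1
theorem t_pota : S_POTA := Pool.Agent.W347.PS.both.2
theorem t_potd : S_POTD := Pool.Agent.W67.PS.potd
theorem t_fs : S_FS := Pool.Agent.W790.PS.fs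
theorem t_potw : S_POTW := Pool.Agent.W790.PS.potw t_potd t_fs
theorem t_expc : S_EXPC := Pool.Agent.W451.PS.expc
theorem t_lad : S_LAD := Pool.Agent.W451.PS.lad
theorem t_fri : S_FRI := Pool.Agent.W451.PS.fri
theorem t_poi : S_POI := Pool.Agent.W253.PS.poi
theorem t_w1 : S_W1 := Pool.Agent.W933.PS.w1 t_expc t_poi
theorem t_w2 : S_W2 := Pool.Agent.W140.PS.w2
theorem t_w3 : S_W3 := Pool.Agent.W140.PS.w3
theorem t_k1 : S_K1 := Pool.Agent.W395.PS.k1
theorem t_avl : S_AVL := Pool.Agent.W395.PS.avl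
theorem t_bmj : S_BMJ := Pool.Agent.W787.PS.bmj
theorem t_mono : S_MONO := Pool.Agent.W636.PS.mono
theorem t_scm : S_SCM := Pool.Agent.W636.PS.scm
theorem t_scal : S_SCAL := Pool.Agent.W636.PS.scal t_poti
theorem t_jen : S_JEN := Pool.Agent.W636.PS.jen
theorem t_rj : S_RJ := Pool.Agent.W787.PS.rj t_w1 t_bmj t_poti
theorem t_rjs : S_RJS := Pool.Agent.W11.PSR.rjs t_rj t_scal t_scm t_mono
theorem t_mc : S_MC := Pool.Agent.W392.PS.MC.mc t_w2 t_avl t_pota
theorem t_cmp : S_CMP := Pool.Agent.W392.PS.MC.cmp t_w3 t_k1 t_pota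
theorem t_cmpl : S_CMPL := Pool.Agent.W392.PS.MC.cmpl t_cmp t_scal t_scm
theorem t_nsa : S_NSA := Pool.Agent.W11.PSR.nsa t_rjs t_jen
theorem t_l2b : S_L2B := Pool.Agent.W11.PSR.l2b t_rjs t_jen
theorem t_nav : S_NAV := Pool.Agent.W11.PSR.nav t_rjs t_mc t_mono
theorem t_nk1 : S_NK1 := Pool.Agent.W787.PS.nk1 t_rjs t_cmp t_scm t_jen t_mono
theorem t_nk2 : S_NK2 := Pool.Agent.W787.PS.nk2 t_nk1
theorem t_vir : S_VIR := Pool.Agent.W787.PS.Vir.vir t_potd
theorem t_ker : S_KER := Pool.Agent.W787.PS.W414.ker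
theorem t_reg : S_REG := Pool.Agent.W787.PS.W414.reg t_vir t_ker
theorem t_ami : S_AMI := ami t_cmpl t_mc t_jen t_scal t_scm t_mono
theorem t_abs : S_ABS := Pool.Agent.W787.PS.abs_lemma
theorem t_sel : S_SEL := Pool.Agent.W787.PS.sel
theorem t_lqa : S_LQA := Pool.Agent.W787.PS.Lq.lqa t_l2b t_reg
theorem t_lqb : S_LQB := Pool.Agent.W787.PS.Lq.lqb t_scal t_scm t_mono t_nsa t_ami t_nav t_abs
theorem t_core : S_CORE := core t_mono t_scal t_scm t_nk2 t_nsa t_sel t_lqa t_lqb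

end Pool.Agent.W787.PS.Asm
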