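import Mathlib

/-!
# Closed Riemannian surfaces
-/

open MeasureTheory Set Metric Filter Topology
open scoped ContDiff

noncomputable section

namespace Pool.Agent.W787.PS

/-- The quadratic form `E dx² + 2 F dx dy + G dy²`. -/
def qf (E F G : ℝ) (v : ℂ) : ℝ := E * v.re ^ 2 + 2 * F * v.re * v.im + G * v.im ^ 2

/-- A closed Riemannian surface of unit area (used for compact connected Hausdorff spaces `M`):
charts with values in the plane and smooth transition maps; in every chart the metric is
`E dx² + 2 F dx dy + G dy²` with smooth coefficients, positive definite (`pos`), the transition maps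
are isometries (`trans_isom`), and `vol` is the Riemannian measure `√(E G - F²) dx dy`. -/
structure RiemSurface (M : Type) [TopologicalSpace M] [MeasurableSpace M] where
  ι : Type
  chart : ι → OpenPartialHomeomorph M ℂ
  cover : ∀ x : M, ∃ i, x ∈ (chart i).source
  E : ι → ℂ → ℝ
  F : ι → ℂ → ℝ
  G : ι → ℂ → ℝ
  E_smooth : ∀ i, ContDiffOn ℝ ∞ (E i) (chart i).target
  F_smooth : ∀ i, ContDiffOn ℝ ∞ (F i) (chart i).target
  G_smooth : ∀ i, ContDiffOn ℝ ∞ (G i) (chart i).target
  pos : ∀ i, ∀ z ∈ (chart i).target, 0 < E i z ∧ 0 < E i z * G i z - F i z ^ 2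
  trans_smooth : ∀ i j, ContDiffOn ℝ ∞ (chart j ∘ (chart i).symm)
    ((chart i).symm.trans (chart j)).source
  trans_isom : ∀ i j, ∀ z ∈ ((chart i).symm.trans (chart j)).source, ∀ v : ℂ,
    qf (E j (chart j ((chart i).symm z))) (F j (chart j ((chart i).symm z)))
      (G j (chart j ((chart i).symm z))) (fderiv ℝ (chart j ∘ (chart i).symm) z v)
      = qf (E i z) (F i z) (G i z) v
  vol : Measure M
  vol_chart : ∀ i, ∀ A : Set M, MeasurableSet A → A ⊆ (chart i).source →
    vol A = ∫⁻ z in chart i '' A, ENNReal.ofReal (Real.sqrt (E i z * G i z - F i z ^ 2))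
  vol_univ : vol univ = 1

namespace RiemSurface

variable {M : Type} [TopologicalSpace M] [MeasurableSpace M] (X : RiemSurface M)

/-- Smooth functions on the surface. -/
def Smooth (u : M → ℝ) : Prop := ∀ i, ContDiffOn ℝ ∞ (u ∘ (X.chart i).symm) (X.chart i).target

/-- A chart around a point. -/
def idx (x : M) : X.ι := Classical.choose (X.cover x)

/-- The inner product, with respect to the metric `E dx² + 2 F dx dy + G dy²` at `z`, of the
gradients of two functions of the plane. -/
def gdotE (E F G : ℝ) (f g : ℂ → ℝ) (z : ℂ) : ℝ :=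
  (G * (fderiv ℝ f z 1 * fderiv ℝ g z 1)
    - F * (fderiv ℝ f z 1 * fderiv ℝ g z Complex.I + fderiv ℝ f z Complex.I * fderiv ℝ g z 1)
    + E * (fderiv ℝ f z Complex.I * fderiv ℝ g z Complex.I)) / (E * G - F ^ 2)

/-- The Riemannian inner product of the gradients of two functions, computed in a chart. -/
def gip (u v : M → ℝ) (x : M) : ℝ :=
  gdotE (X.E (X.idx x) (X.chart (X.idx x) x)) (X.F (X.idx x) (X.chart (X.idx x) x))
    (X.G (X.idx x) (X.chart (X.idx x) x)) (u ∘ (X.chart (X.idx x)).symm)
    (v ∘ (X.chart (X.idx x)).symm) (X.chart (X.idx x) x)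

end RiemSurface

end Pool.Agent.W787.PS
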