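import Pool.Agent.W787.PS.Surf
import Pool.Agent.W787.PS.Riem

/-!
# Project PS: smooth isothermal coordinates, exact statements
-/

open MeasureTheory Set Metric Filter Topology
open scoped ContDiff FourierTransform ComplexConjugate

noncomputable section

namespace Pool.Agent.W787.PS

/-- Neumann series for `h = b + b ⋆ (m h)` in weighted L¹ spaces. -/
def S_NEU : Prop := ∀ (b m : ℂ → ℂ) (K : ℝ), Continuous b → Measurable m → (∀ ξ, ‖m ξ‖ ≤ K) →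
  0 < K → (∀ k : ℕ, Integrable (fun ξ => (1 + ‖ξ‖) ^ k * ‖b ξ‖)) → (∃ B : ℝ, ∀ ξ, ‖b ξ‖ ≤ B) →
  K * (∫ ξ, ‖b ξ‖) ≤ 1 / 4 →
  ∃ h : ℂ → ℂ, Measurable h ∧ (∃ B : ℝ, ∀ ξ, ‖h ξ‖ ≤ B) ∧
    (∀ k : ℕ, Integrable (fun ξ => (1 + ‖ξ‖) ^ k * ‖h ξ‖)) ∧
    (∀ ξ, h ξ = b ξ + ∫ η, b (ξ - η) * (m η * h η)) ∧
    ∫ ξ, ‖h ξ‖ ≤ 2 * ∫ ξ, ‖b ξ‖

/-- Beltrami equation with a small smooth perturbation of a constant coefficient. -/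
def S_BEL : Prop := ∀ (β : ℂ → ℂ) (μ₀ : ℂ), ContDiff ℝ ∞ β → HasCompactSupport β → ‖μ₀‖ < 1 →
  ∫ ξ, ‖𝓕 β ξ‖ ≤ (1 - ‖μ₀‖) / 4 →
  ∃ f A : ℂ → ℂ, ContDiff ℝ ∞ f ∧ ContDiff ℝ ∞ A ∧
    (∀ x v : ℂ, fderiv ℝ f x v = A x * (v + (μ₀ + β x) * conj v)) ∧ A 0 ≠ 0

/-- Localisation makes the Fourier L¹ norm small. -/
def S_SML : Prop := ∀ (μ : ℂ → ℂ) (Ω : Set ℂ) (z₀ : ℂ), IsOpen Ω → z₀ ∈ Ω → ContDiffOn ℝ ∞ μ Ω →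
  ∀ ε : ℝ, 0 < ε → ∃ (s : ℝ) (β : ℂ → ℂ), 0 < s ∧ ball z₀ s ⊆ Ω ∧ ContDiff ℝ ∞ β ∧
    HasCompactSupport β ∧ (∀ x ∈ ball (0 : ℂ) 1, β x = μ (z₀ + s * x) - μ z₀) ∧
    ∫ ξ, ‖𝓕 β ξ‖ ≤ ε

/-- The quadratic form in complex notation. -/
def S_QAL : Prop := ∀ E F G : ℝ, 0 < E → 0 < E * G - F ^ 2 →
  0 < E + G + 2 * Real.sqrt (E * G - F ^ 2) ∧
  ‖((E - G : ℝ) + 2 * F * Complex.I : ℂ) / ((E + G + 2 * Real.sqrt (E * G - F ^ 2) : ℝ) : ℂ)‖ < 1 ∧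
  ∀ v : ℂ, qf E F G v = (E + G + 2 * Real.sqrt (E * G - F ^ 2)) / 4 *
    ‖v + ((E - G : ℝ) + 2 * F * Complex.I : ℂ) /
      ((E + G + 2 * Real.sqrt (E * G - F ^ 2) : ℝ) : ℂ) * conj v‖ ^ 2

/-- Smooth isothermal coordinates near a point of the plane. -/
def S_ISOL : Prop := ∀ (E F G : ℂ → ℝ) (Ω : Set ℂ) (z₀ : ℂ), IsOpen Ω → z₀ ∈ Ω →
  ContDiffOn ℝ ∞ E Ω → ContDiffOn ℝ ∞ F Ω → ContDiffOn ℝ ∞ G Ω →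
  (∀ z ∈ Ω, 0 < E z ∧ 0 < E z * G z - F z ^ 2) →
  ∃ (Ψ : OpenPartialHomeomorph ℂ ℂ) (μ : ℂ → ℝ), z₀ ∈ Ψ.source ∧ Ψ.source ⊆ Ω ∧
    ContDiffOn ℝ ∞ Ψ Ψ.source ∧ ContDiffOn ℝ ∞ Ψ.symm Ψ.target ∧ ContDiffOn ℝ ∞ μ Ψ.target ∧
    (∀ w ∈ Ψ.target, 0 < μ w) ∧
    ∀ z ∈ Ψ.source, ∀ v : ℂ, qf (E z) (F z) (G z) v = μ (Ψ z) * ‖fderiv ℝ Ψ z v‖ ^ 2

/-- Every closed Riemannian surface has an isothermal atlas. -/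
def S_ISOG : Prop := ∀ (M : Type) [TopologicalSpace M] [T2Space M] [CompactSpace M]
  [MeasurableSpace M] [BorelSpace M] (X : RiemSurface M),
  ∃ Y : ClosedSurface M, Y.vol = X.vol ∧ (∀ u, Y.Smooth u ↔ X.Smooth u) ∧
    ∀ u v, X.Smooth u → X.Smooth v → Y.gip u v = X.gip u v

end Pool.Agent.W787.PS
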