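import Pool.Agent.W787.PS.MainA
import Pool.Agent.W787.PS.StmC
import Pool.Agent.W787.PS.StmD
import Pool.Agent.W880.PS.LocwMain
import Pool.Agent.W738.PS.LOC
import Pool.Agent.W196.PS.GIP
import Pool.Agent.W828.PS.Smo
import Pool.Agent.W583.PS.Disc
import Pool.Agent.W696.PS.Poim
import Pool.Agent.W589.PS.MTM
import Pool.Agent.W563.PS.Tru
import Pool.Agent.W465.PS.Alt
import Pool.Agent.W11.PS.H1Z
import Pool.Agent.W717.PS.H1A
import Pool.Agent.W318.PSM.H1b
import Pool.Agent.W174.PSH.H1C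

/-!
# Project PS: assembly of the surface part
-/

open MeasureTheory Set Filter Topology

noncomputable section

namespace Pool.Agent.W787.PS.Asm

open Pool.Agent.W787.PS

theorem t_locw : S_LOCW := Pool.Agent.W880.PS.locw t_potd t_potw t_poti
theorem t_loc : S_LOC := Pool.Agent.W738.PS.loc t_locw t_potd t_fs t_poti
theorem t_gip : S_GIP := gip_chart
theorem t_chv : S_CHV := chv
theorem t_smo : S_SMO := Pool.Agent.W828.PS.smo
theorem t_dir : S_DIR := Pool.Agent.W828.PS.dirf t_gip t_smo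
theorem t_disc : S_DISC := disc t_gip t_chv t_smo
theorem t_poim : S_POIM := Pool.Agent.W696.PS.poim t_disc t_poi t_smo t_gip
theorem t_l4m : S_L4M := Pool.Agent.W589.PS.MTM.l4m t_disc t_lad t_smo t_gip
theorem t_mtm : S_MTM := Pool.Agent.W589.PS.MTM.mtm t_disc t_expc t_smo t_gip
theorem t_tru : S_TRU := Pool.Agent.W563.PS.Tru.tru t_smo t_dir t_poim t_l4m
theorem t_h1z : S_H1Z := Pool.Agent.W11.PSH.h1z
theorem t_h1a : S_H1A := h1a t_h1z
theorem t_h1b : S_H1B := Pool.Agent.W318.PSM.h1b t_h1z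
theorem t_h1c : S_H1C := Pool.Agent.W174.PSH.h1c t_h1z

theorem t_alt (hdata : S_DATA) : S_ALT :=
  Pool.Agent.W465.PSAlt.alt t_disc t_tru hdata t_mono t_nsa t_l2b t_ami t_nav t_abs t_core t_smo

theorem t_pss (hdata : S_DATA) (hcau : S_CAU) : S_PSS := by
  intro M _ _ _ _ _ _ X h lam hh hpos hlam hN 𝒰 u hu
  rcases t_alt hdata M X h lam hh hpos hlam 𝒰 u hu with ⟨k, hk⟩ | ⟨C, hC⟩
  · exact absurd hk (hN k)
  · exact hcau M X h lam hh hpos hlam 𝒰 u C hu hC

end Pool.Agent.W787.PS.Asm
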