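import Pool.Agent.W787.PS.MainB
import Pool.Agent.W787.PS.RGeo
import Pool.Agent.W605.PS.H1D

/-!
# Project PS: the final assembly
-/

open MeasureTheory Set Filter Topology

noncomputable section

namespace Pool.Agent.W787.PS.Asm

open Pool.Agent.W787.PS

section

variable {M : Type} [TopologicalSpace M] [T2Space M] [CompactSpace M] [MeasurableSpace M]
  [BorelSpace M] {X : RiemSurface M} {Y : ClosedSurface M}

open Classical in
theorem dir_tr (hv : Y.vol = X.vol)
    (hg : ∀ u v, X.Smooth u → X.Smooth v → Y.gip u v = X.gip u v) {u v : M → ℝ}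
    (hu : X.Smooth u) (hw : X.Smooth v) : X.geo.dir u v = Y.dir u v := by
  show ∫ x, (if X.Smooth u ∧ X.Smooth v then X.gip u v x else 0) ∂X.vol = ∫ x, Y.gip u v x ∂Y.vol
  rw [hv]
  simp only [hu, hw, and_self, if_true, hg u v hu hw]

theorem h1sq_tr (hv : Y.vol = X.vol)
    (hg : ∀ u v, X.Smooth u → X.Smooth v → Y.gip u v = X.gip u v) {u : M → ℝ}
    (hu : X.Smooth u) : X.geo.h1sq u = Y.h1sq u := by
  show ∫ x, u x ^ 2 ∂X.vol + X.geo.dir u u = ∫ x, u x ^ 2 ∂Y.vol + Y.dir u u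
  rw [dir_tr hv hg hu hu, hv]

end

/-- Exponential and `L⁴` integrability of the elements of `H¹`. -/
theorem exa_all (hisog : S_ISOG) (M : Type) [TopologicalSpace M]
    [T2Space M] [CompactSpace M] [MeasurableSpace M] [BorelSpace M]
    (X : RiemSurface M) : EXA X.geo := by
  obtain ⟨Y, hv, hS, hg⟩ := hisog M X
  have hL4 : L4g X.geo := by
    obtain ⟨C, hC, H⟩ := t_l4m M Y
    refine ⟨C, hC, fun u hu => ?_⟩
    have hu' : X.Smooth u := hu
    rw [h1sq_tr hv hg hu']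
    have := H u ((hS u).2 hu')
    rwa [hv] at this
  have hMT : MTg X.geo := by
    intro q hq
    obtain ⟨ε, C, hε, hC, H⟩ := t_mtm M Y q hq
    refine ⟨ε, C, hε, hC, fun u hu hle => ?_⟩
    have hu' : X.Smooth u := hu
    rw [h1sq_tr hv hg hu'] at hle
    have := H u ((hS u).2 hu') hle
    rwa [hv] at this
  exact t_h1a M X.geo hL4 hMT

theorem final (hpss : S_PSS) (hisog : S_ISOG) (h1d : S_H1D) (M : Type) [TopologicalSpace M]
    [T2Space M] [CompactSpace M] [ConnectedSpace M] [MeasurableSpace M] [BorelSpace M]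
    (X : RiemSurface M) (h : M → ℝ) (lam : ℝ) (hh : X.Smooth h) (hpos : ∀ x, 0 < h x)
    (hlam : 0 < lam) (hN : ∀ k : ℕ, lam ≠ 8 * Real.pi * k) : PSP X.geo h lam := by
  have hEX : EXA X.geo := exa_all hisog M X
  obtain ⟨Y, hv, hS, hg⟩ := hisog M X
  have hAP : APX X.geo := t_h1b M X.geo hEX
  have hc : Continuous h := X.smooth_cont hh
  have hDE : DER X.geo h lam := t_h1c M X.geo h lam hEX hc hpos
  refine h1d M X.geo h lam hEX hAP hc hpos hDE ?_
  intro 𝒰 u hu ε hε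
  have key : ∀ ε : ℝ, 0 < ε → ∀ᶠ n in (𝒰 : Filter ℕ), PSb Y h lam ε (u n) := by
    intro ε hε
    filter_upwards [hu ε hε] with n hn
    obtain ⟨h1, h2, h3⟩ := hn
    have h1' : X.Smooth (u n) := h1
    refine ⟨(hS _).2 h1', ?_, ?_⟩
    · rw [hv]; exact h2
    · intro φ hφ
      have hφ' : X.Smooth φ := (hS φ).1 hφ
      have := h3 φ hφ'
      rw [dir_tr hv hg h1' hφ', h1sq_tr hv hg hφ'] at this
      rw [hv]; exact this
  obtain ⟨T, hT, H⟩ := hpss M Y h lam ((hS h).2 hh) hpos hlam hN 𝒰 u key ε hε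
  have hg0 : ∀ᶠ n in (𝒰 : Filter ℕ), X.Smooth (u n) := by
    filter_upwards [hu 1 one_pos] with n hn using hn.1
  refine ⟨T ∩ {n | X.Smooth (u n)}, Filter.inter_mem hT hg0, ?_⟩
  intro n hn m hm
  have hs : X.Smooth (fun x => u n x - u m x) := X.S.sub_mem hn.2 hm.2
  rw [h1sq_tr hv hg hs]
  exact H n hn.1 m hm.1

end Pool.Agent.W787.PS.Asm
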