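import Pool.Agent.W787.PS.Riem

/-!
# The mean-field functional on `H¹(M)` and the Palais-Smale property
-/

open MeasureTheory Filter Topology

noncomputable section

namespace Pool.Agent.W787.PS

/-- The Hilbert space `H` is the Sobolev space `H¹(M)` of the closed Riemannian surface `M`:
`H` is the completion of the space of smooth functions for the inner product
`∫ f g + ∫ ⟨∇f, ∇g⟩` (`emb f` is the element of `H` given by the smooth function `f`), and `rep u` is
the square integrable function on `M` given by `u : H`. These data are unique up to isometry. -/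
structure Sobolev {M : Type} [TopologicalSpace M] [MeasurableSpace M] (X : RiemSurface M)
    (H : Type) [NormedAddCommGroup H] [InnerProductSpace ℝ H] where
  /-- `H` is a Hilbert space -/
  complete : CompleteSpace H
  /-- the element of `H` given by a smooth function (no meaning for other functions) -/
  emb : (M → ℝ) → H
  inner_emb : ∀ f g, X.Smooth f → X.Smooth g →
    inner ℝ (emb f) (emb g) = (∫ x, f x * g x ∂X.vol) + ∫ x, X.gip f g x ∂X.vol
  /-- smooth functions are dense -/
  dense : ∀ (u : H) (ε : ℝ), 0 < ε → ∃ f, X.Smooth f ∧ ‖u - emb f‖ < ε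
  /-- the function on `M` (defined almost everywhere) given by an element of `H` -/
  rep : H → M → ℝ
  memLp : ∀ u, MemLp (rep u) 2 X.vol
  rep_emb : ∀ f, X.Smooth f → rep (emb f) =ᵐ[X.vol] f
  /-- the `L²` distance is at most the distance in `H` -/
  rep_le : ∀ u v, ∫ x, (rep u x - rep v x) ^ 2 ∂X.vol ≤ ‖u - v‖ ^ 2

namespace Sobolev

variable {M : Type} [TopologicalSpace M] [MeasurableSpace M] {X : RiemSurface M}
  {H : Type} [NormedAddCommGroup H] [InnerProductSpace ℝ H] (m : Sobolev X H)

/-- The Dirichlet energy `∫ |∇u|²` of an element of `H¹(M)`. -/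
def energy (u : H) : ℝ := ‖u‖ ^ 2 - ∫ x, m.rep u x ^ 2 ∂X.vol

/-- The mean-field functional `J u = 1/2 ∫ |∇u|² + lam ∫ u - lam log ∫ h e^u`. -/
def J (h : M → ℝ) (lam : ℝ) (u : H) : ℝ :=
  1 / 2 * m.energy u + lam * (∫ x, m.rep u x ∂X.vol)
    - lam * Real.log (∫ x, h x * Real.exp (m.rep u x) ∂X.vol)

/-- The Palais-Smale property: every sequence `U n` in `H¹(M)` with `∫ h e^{U n} = 1`,
`J (U n) → c` and `J' (U n) → 0` in the dual of `H¹(M)` has a subsequence which converges in
`H¹(M)`. -/
def PalaisSmale (h : M → ℝ) (lam : ℝ) : Prop :=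
  ∀ U : ℕ → H, (∀ n, ∫ x, h x * Real.exp (m.rep (U n) x) ∂X.vol = 1) →
    (∃ c : ℝ, Tendsto (fun n => m.J h lam (U n)) atTop (𝓝 c)) →
    Tendsto (fun n => ‖fderiv ℝ (m.J h lam) (U n)‖) atTop (𝓝 0) →
    ∃ (V : H) (φ : ℕ → ℕ), StrictMono φ ∧ Tendsto (fun k => U (φ k)) atTop (𝓝 V)

end Sobolev

end Pool.Agent.W787.PS
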