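import Pool.Agent.W787.PS.Defs

/-!
# Project PS: exact statements of the planar steps
-/

open MeasureTheory Set Metric Filter Topology

noncomputable section

namespace Pool.Agent.W787.PS

/-! ### Inequalities for C¹ functions -/

def S_EXPC : Prop := ∃ c : ℝ, 0 < c ∧ ∀ u : ℂ → ℝ, ContDiff ℝ 1 u → HasCompactSupport u →
  ∀ S : Set ℂ, MeasurableSet S → volume S ≠ ⊤ → tsupport u ⊆ S →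
  ∀ q ε : ℝ, 0 ≤ q → 0 ≤ ε → q * ε ≤ c → ∫ x, nsq u x ≤ ε ^ 2 →
  ∫ x in S, Real.exp (q * |u x|) ≤ 4 * (volume S).toReal

def S_LAD : Prop := ∃ C : ℝ, 0 < C ∧ ∀ u : ℂ → ℝ, ContDiff ℝ 1 u → HasCompactSupport u →
  ∫ x, u x ^ 4 ≤ C * (∫ x, u x ^ 2) * ∫ x, nsq u x

def S_FRI : Prop := ∃ C : ℝ, 0 < C ∧ ∀ (u : ℂ → ℝ) (a : ℂ) (R : ℝ), 0 < R → ContDiff ℝ 1 u →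
  tsupport u ⊆ closedBall a R → ∫ x, u x ^ 2 ≤ C * R ^ 2 * ∫ x, nsq u x

def S_POI : Prop := ∃ C : ℝ, 0 < C ∧ ∀ (w : ℂ → ℝ) (a : ℂ) (r R : ℝ), 0 < r → r < R →
  ContDiffOn ℝ 1 w (ball a R) →
  ∫ x in ball a r, (w x - avg w a r) ^ 2 ≤ C * r ^ 2 * ∫ x in ball a r, nsq w x

def S_W1 : Prop := ∀ q : ℝ, 0 < q → ∃ ε C : ℝ, 0 < ε ∧ 0 < C ∧ ∀ w : ℂ → ℝ,
  ContDiffOn ℝ 1 w (ball 0 4) → IntegrableOn (nsq w) (ball 0 4) →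
  ∫ x in ball (0 : ℂ) 4, nsq w x ≤ ε ^ 2 →
  ∫ x in ball (0 : ℂ) 1, Real.exp (q * |w x - avg w 0 1|) ≤ C

def S_W2 : Prop := ∀ (a b : ℂ) (r s R : ℝ), 0 < r → 0 < s → ‖a‖ + r < R → ‖b‖ + s < R →
  ∃ C : ℝ, 0 < C ∧ ∀ w : ℂ → ℝ, ContDiffOn ℝ 1 w (ball 0 R) → IntegrableOn (nsq w) (ball 0 R) →
  |avg w a r - avg w b s| ≤ C * Real.sqrt (∫ x in ball (0 : ℂ) R, nsq w x)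

def S_W3 : Prop := ∃ C : ℝ, 0 < C ∧ ∀ (w : ℂ → ℝ) (R : ℝ), ContDiffOn ℝ 1 w (ball 0 R) →
  IntegrableOn (nsq w) (ball 0 R) → ∀ (a : ℂ) (t : ℝ), 1 ≤ ‖a‖ → ‖a‖ ≤ 2 → 1 ≤ t → 3 * t ≤ R →
  |avg (fun x => w ((t : ℂ) * x)) a (1 / 16) - avg w a (1 / 16)|
    ≤ C * Real.sqrt (Real.log t) * Real.sqrt (∫ x in ball (0 : ℂ) R, nsq w x)

/-! ### The logarithmic kernel and potentials -/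

def S_K1 : Prop := ∃ C : ℝ, 0 < C ∧ ∀ (a : ℂ) (t : ℝ), 1 ≤ ‖a‖ → ‖a‖ ≤ 2 → 1 ≤ t → ∀ y : ℂ,
  avg (fun x => Real.log ‖x - y‖ - Real.log ‖(t : ℂ) * x - y‖) a (1 / 16) ≤ C ∧
  (‖y‖ ≤ 1 / 2 →
    avg (fun x => Real.log ‖x - y‖ - Real.log ‖(t : ℂ) * x - y‖) a (1 / 16) ≤ C - Real.log t)

def S_AVL : Prop := ∀ (a b : ℂ) (r s : ℝ), 0 < r → 0 < s → ∃ C : ℝ, ∀ y : ℂ,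
  |avg (fun x => Real.log ‖x - y‖) a r - avg (fun x => Real.log ‖x - y‖) b s| ≤ C

def S_POTI : Prop := ∀ ρ : ℂ → ℝ, Continuous ρ → HasCompactSupport ρ →
  (∀ x, Integrable (fun y => Real.log ‖x - y‖ * ρ y)) ∧ Continuous (pot ρ)

def S_POTA : Prop := ∀ ρ : ℂ → ℝ, Continuous ρ → HasCompactSupport ρ →
  ∀ (a : ℂ) (r t : ℝ), 0 < r → 0 < t →
  Integrable (fun y => avg (fun x => Real.log ‖(t : ℂ) * x - y‖) a r * ρ y) ∧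
  avg (fun x => pot ρ ((t : ℂ) * x)) a r =
    -(1 / (2 * Real.pi)) * ∫ y, avg (fun x => Real.log ‖(t : ℂ) * x - y‖) a r * ρ y

def S_POTD : Prop := ∀ f : ℂ → ℝ, ContDiff ℝ 1 f → HasCompactSupport f →
  ContDiff ℝ 1 (pot f) ∧
  (∀ x v : ℂ, fderiv ℝ (pot f) x v = pot (fun y => fderiv ℝ f y v) x) ∧
  (∀ x v : ℂ, Integrable (fun y => inner ℝ (x - y) v / ‖x - y‖ ^ 2 * f y)) ∧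
  (∀ x v : ℂ, fderiv ℝ (pot f) x v =
    -(1 / (2 * Real.pi)) * ∫ y, inner ℝ (x - y) v / ‖x - y‖ ^ 2 * f y)

def S_FS : Prop := ∀ φ : ℂ → ℝ, ContDiff ℝ 1 φ → HasCompactSupport φ → ∀ y : ℂ,
  Integrable (fun x => fderiv ℝ φ x (x - y) / ‖x - y‖ ^ 2) ∧
  φ y = -(1 / (2 * Real.pi)) * ∫ x, fderiv ℝ φ x (x - y) / ‖x - y‖ ^ 2

def S_POTW : Prop := ∀ f φ : ℂ → ℝ, ContDiff ℝ 1 f → HasCompactSupport f → ContDiff ℝ 1 φ →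
  HasCompactSupport φ → ∫ x, gdot (pot f) φ x = ∫ x, f x * φ x

def S_BMJ : Prop := ∀ b : ℝ, 0 < b → b < 2 → ∃ C : ℝ, 0 < C ∧ ∀ (ρ : ℂ → ℝ) (q : ℝ), 0 < q →
  Continuous ρ → (∀ x, 0 ≤ ρ x) → q * ms ρ 0 4 ≤ 2 * Real.pi * b →
  ∫ x in ball (0 : ℂ) 1,
    Real.exp (-(q / (2 * Real.pi)) * ∫ y in ball (0 : ℂ) 4, Real.log ‖x - y‖ * ρ y) ≤ C

/-! ### Data -/

def S_MONO : Prop := ∀ (Λ R L ε R' L' ε' : ℝ) (ρ g w : ℂ → ℝ), IsDatum Λ R L ε ρ g w →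
  R' ≤ R → L ^ 2 ≤ L' ^ 2 → ε ^ 2 ≤ ε' ^ 2 → IsDatum Λ R' L' ε' ρ g w

def S_SCAL : Prop := ∀ (Λ R L ε : ℝ) (ρ g w : ℂ → ℝ), IsDatum Λ R L ε ρ g w →
  ∀ (a : ℂ) (s R' : ℝ), 0 < s → 0 < R' → ‖a‖ + s * R' ≤ R →
  IsDatum Λ R' (s * L) ε (scρ ρ a s) (scg ρ g a s) (scw w a s)

def S_SCM : Prop := (∀ (h : ℂ → ℝ) (a b : ℂ) (s t : ℝ), 0 < s →
    avg (fun y => h (a + s * y)) b t = avg h (a + s * b) (s * t)) ∧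
  (∀ (ρ : ℂ → ℝ) (a b : ℂ) (s t : ℝ), 0 < s → ms (scρ ρ a s) b t = ms ρ (a + s * b) (s * t)) ∧
  (∀ (ρ : ℂ → ℝ) (a : ℂ) (s : ℝ), 0 < s → ∫ x, scρ ρ a s x = ∫ x, ρ x)

def S_JEN : Prop := ∀ (Λ R L ε : ℝ) (ρ g w : ℂ → ℝ), IsDatum Λ R L ε ρ g w →
  ∀ (a : ℂ) (r : ℝ), 0 < r → ‖a‖ + r < R →
  Real.pi * r ^ 2 * Real.exp (avg (fun x => Real.log (ρ x)) a r) ≤ ms ρ a r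

/-- Reverse Jensen inequality (Brezis-Merle) at unit scale. -/
def S_RJ : Prop := ∀ τ q Λ C₀ : ℝ, 0 < τ → 1 ≤ q → q * τ < 4 * Real.pi → 0 ≤ Λ → 0 ≤ C₀ →
  ∃ ε C : ℝ, 0 < ε ∧ 0 < C ∧ ∀ ρ g w : ℂ → ℝ, IsDatum Λ 4 C₀ ε ρ g w → ms ρ 0 4 ≤ τ →
  ∫ x in ball (0 : ℂ) 1, ρ x ^ q ≤ C * Real.exp (q * avg (fun x => Real.log (ρ x)) 0 1)

def S_RJS : Prop := ∀ τ q Λ C₀ : ℝ, 0 < τ → 1 ≤ q → q * τ < 4 * Real.pi → 0 ≤ Λ → 0 ≤ C₀ →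
  ∃ ε C : ℝ, 0 < ε ∧ 0 < C ∧ ∀ (R L : ℝ) (ρ g w : ℂ → ℝ), 0 ≤ L → IsDatum Λ R L ε ρ g w →
  ∀ (a : ℂ) (s : ℝ), 0 < s → ‖a‖ + 4 * s ≤ R → s * L ≤ C₀ → ms ρ a (4 * s) ≤ τ →
  ∫ x in ball a s, ρ x ^ q ≤
    C * s ^ 2 * Real.exp (q * avg (fun x => Real.log (ρ x)) a s)

def S_MC : Prop := ∀ (Λ R L : ℝ) (a b : ℂ) (r s : ℝ), 0 ≤ Λ → 0 ≤ L → 0 < r → 0 < s →
  ‖a‖ + r < R → ‖b‖ + s < R → ∃ C : ℝ, ∀ ρ g w : ℂ → ℝ, IsDatum Λ R L 1 ρ g w →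
  |avg (fun x => Real.log (ρ x)) a r - avg (fun x => Real.log (ρ x)) b s| ≤ C

def S_CMP : Prop := ∃ C : ℝ, 0 < C ∧ ∀ (Λ R L ε : ℝ) (ρ g w : ℂ → ℝ), 0 ≤ Λ → 0 ≤ L → 0 ≤ ε →
  IsDatum Λ R L ε ρ g w → ∀ (a : ℂ) (t : ℝ), 1 ≤ ‖a‖ → ‖a‖ ≤ 2 → 1 ≤ t → 3 * t ≤ R →
  avg (fun x => Real.log (ρ ((t : ℂ) * x))) a (1 / 16) - avg (fun x => Real.log (ρ x)) a (1 / 16)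
    ≤ -(Real.log t / (2 * Real.pi)) * ms ρ 0 (1 / 2)
      + C * (Λ + t * L + ε * Real.sqrt (Real.log t))

def S_CMPL : Prop := ∃ C : ℝ, 0 < C ∧ ∀ (Λ R L ε : ℝ) (ρ g w : ℂ → ℝ), 0 ≤ Λ → 0 ≤ L → 0 ≤ ε →
  IsDatum Λ R L ε ρ g w → ∀ (a : ℂ) (t : ℝ), 1 ≤ ‖a‖ → ‖a‖ ≤ 2 → 0 < t → t ≤ 1 → 3 ≤ R →
  Real.log t⁻¹ / (2 * Real.pi) * ms ρ 0 (t / 2) - C * (Λ + L + ε * Real.sqrt (Real.log t⁻¹))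
    ≤ avg (fun x => Real.log (ρ ((t : ℂ) * x))) a (1 / 16)
      - avg (fun x => Real.log (ρ x)) a (1 / 16)

/-- Neck lemma, one direction. -/
def S_NK1 : Prop := ∀ Λ C₀ η : ℝ, 0 ≤ Λ → 0 ≤ C₀ → 0 < η →
  ∃ ε C κ : ℝ, 0 < ε ∧ 0 < C ∧ 0 < κ ∧ ∀ (R L : ℝ) (ρ g w : ℂ → ℝ), 0 ≤ L → R * L ≤ C₀ →
  IsDatum Λ R L ε ρ g w → 4 * Real.pi + η ≤ ms ρ 0 (1 / 2) →
  ∫ x in ball (0 : ℂ) R \ ball 0 (1 / 2), ρ x ≤ Real.pi →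
  ∀ (a : ℂ) (t : ℝ), 1 ≤ ‖a‖ → ‖a‖ ≤ 2 → 1 ≤ t → 3 * t ≤ R →
  ms ρ (t * a) (t / 16) ≤ C * t ^ (-κ) * ms ρ a (1 / 16)

/-- Neck lemma. -/
def S_NK2 : Prop := ∀ Λ C₀ η : ℝ, 0 ≤ Λ → 0 ≤ C₀ → 0 < η →
  ∃ ε C : ℝ, 0 < ε ∧ 0 < C ∧ ∀ (R L : ℝ) (ρ g w : ℂ → ℝ), 0 ≤ L → R * L ≤ C₀ → 8 ≤ R →
  IsDatum Λ R L ε ρ g w → 4 * Real.pi + η ≤ ms ρ 0 (1 / 2) →
  ∫ x in ball (0 : ℂ) R \ ball 0 (1 / 2), ρ x ≤ Real.pi →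
  ms ρ 0 (R / 8) - ms ρ 0 1 ≤ C * (ms ρ 0 3 - ms ρ 0 (1 / 2))

/-- Virial identity. -/
def S_VIR : Prop := ∀ (Λ R L ε : ℝ) (ρ g w : ℂ → ℝ), IsDatum Λ R L ε ρ g w →
  ∀ θ : ℂ → ℝ, ContDiff ℝ 1 θ → HasCompactSupport θ → tsupport θ ⊆ ball 0 R →
  ∫ x, (2 * θ x + fderiv ℝ θ x x) * ρ x =
    1 / (4 * Real.pi) * (∫ p : ℂ × ℂ, inner ℝ (θ p.1 • p.1 - θ p.2 • p.2) (p.1 - p.2)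
        / ‖p.1 - p.2‖ ^ 2 * (ρ p.1 * ρ p.2))
      - (∫ x, θ x * fderiv ℝ g x x * ρ x) - (∫ x, θ x * fderiv ℝ w x x * ρ x)

def S_KER : Prop := ∃ (C : ℝ) (Θ : ℝ → ℂ → ℝ), 0 < C ∧ ∀ R : ℝ, 0 < R →
  ContDiff ℝ 1 (Θ R) ∧ HasCompactSupport (Θ R) ∧ tsupport (Θ R) ⊆ closedBall 0 (2 * R) ∧
  (∀ x, 0 ≤ Θ R x ∧ Θ R x ≤ 1) ∧ (∀ x : ℂ, ‖x‖ ≤ R → Θ R x = 1) ∧
  (∀ x : ℂ, ‖x‖ < R → fderiv ℝ (Θ R) x = 0) ∧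
  (∀ x, |2 * Θ R x + fderiv ℝ (Θ R) x x| ≤ C) ∧
  (∀ x y : ℂ, |inner ℝ (Θ R x • x - Θ R y • y) (x - y)| ≤ C * ‖x - y‖ ^ 2)

/-! ### Sequences along an ultrafilter -/

def S_REG : Prop := ∀ (𝒰 : Ultrafilter ℕ) (Λ : ℝ) (ρ g w : ℕ → ℂ → ℝ), IsBlow 𝒰 Λ ρ g w →
  (∀ R : ℝ, 0 < R → ∃ C : ℝ, ∀ᶠ n in (𝒰 : Filter ℕ), ∫ x in ball (0 : ℂ) R, ρ n x ^ 2 ≤ C) →
  ∀ (m : ℝ → ℝ) (M : ℝ), (∀ s, 0 < s → Tendsto (fun n => ms (ρ n) 0 s) 𝒰 (𝓝 (m s))) →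
  Tendsto m atTop (𝓝 M) → 0 < M → M = 8 * Real.pi

def S_NSA : Prop := ∀ (𝒰 : Ultrafilter ℕ) (Λ R L : ℝ) (ρ g w : ℕ → ℂ → ℝ), 0 < R → 0 ≤ L →
  0 ≤ Λ → IsSeq 𝒰 Λ R L ρ g w → ∀ (a : ℂ) (r β : ℝ), 0 < r → ‖a‖ + r ≤ R → β < 4 * Real.pi →
  (∀ᶠ n in (𝒰 : Filter ℕ), ms (ρ n) a r ≤ β) → ∀ κ : ℝ, 0 < κ →
  ∃ s : ℝ, 0 < s ∧ ∀ᶠ n in (𝒰 : Filter ℕ), ms (ρ n) a s ≤ κ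

def S_L2B : Prop := ∀ (𝒰 : Ultrafilter ℕ) (Λ R L : ℝ) (ρ g w : ℕ → ℂ → ℝ), 0 < R → 0 ≤ L →
  0 ≤ Λ → IsSeq 𝒰 Λ R L ρ g w → ∀ (a : ℂ) (r : ℝ), 0 < r → ‖a‖ + r ≤ R →
  (∀ᶠ n in (𝒰 : Filter ℕ), ms (ρ n) a r ≤ Real.pi) →
  ∃ C : ℝ, ∀ᶠ n in (𝒰 : Filter ℕ), ∫ x in ball a (r / 4), ρ n x ^ 2 ≤ C

def S_AMI : Prop := ∀ (𝒰 : Ultrafilter ℕ) (Λ R L : ℝ) (ρ g w : ℕ → ℂ → ℝ), 0 < R → 0 ≤ L →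
  0 ≤ Λ → IsSeq 𝒰 Λ R L ρ g w →
  (∀ r, 0 < r → r < R → ∀ κ, 0 < κ → ∀ᶠ n in (𝒰 : Filter ℕ), 4 * Real.pi - κ ≤ ms (ρ n) 0 r) →
  ∀ r, 0 < r → r < R → ∀ A : ℝ,
    ∀ᶠ n in (𝒰 : Filter ℕ), avg (fun x => Real.log (ρ n x)) 0 r ≤ -A

def S_NAV : Prop := ∀ (𝒰 : Ultrafilter ℕ) (Λ R L : ℝ) (ρ g w : ℕ → ℂ → ℝ), 0 < R → 0 ≤ L →
  0 ≤ Λ → IsSeq 𝒰 Λ R L ρ g w → ∀ (b : ℂ) (s : ℝ), 0 < s → ‖b‖ + s < R →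
  (∀ A : ℝ, ∀ᶠ n in (𝒰 : Filter ℕ), avg (fun x => Real.log (ρ n x)) b s ≤ -A) →
  ∀ (a : ℂ) (r β : ℝ), 0 < r → ‖a‖ + r ≤ R → β < 4 * Real.pi →
  (∀ᶠ n in (𝒰 : Filter ℕ), ms (ρ n) a r ≤ β) → Tendsto (fun n => ms (ρ n) a (r / 4)) 𝒰 (𝓝 0)

/-- Concentration points: an abstract lemma. -/
def S_ABS : Prop := ∀ (Y : Type) [TopologicalSpace Y] [T2Space Y] [MeasurableSpace Y]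
  [BorelSpace Y] (𝒰 : Ultrafilter ℕ) (μ : ℕ → Measure Y) (Λ τ : ℝ), (∀ n, IsFiniteMeasure (μ n)) →
  (∀ᶠ n in (𝒰 : Filter ℕ), (μ n).real univ ≤ Λ) → 0 < τ → ∀ K : Set Y, IsCompact K →
  (∀ y ∈ K, (∃ U, IsOpen U ∧ y ∈ U ∧ Tendsto (fun n => (μ n).real U) 𝒰 (𝓝 0)) ∨
    (K ∈ 𝓝 y ∧ ∀ U, IsOpen U → y ∈ U → ∀ᶠ n in (𝒰 : Filter ℕ), τ ≤ (μ n).real U)) →
  ∃ (S : Finset Y) (m : Y → ℝ), (∀ y ∈ S, y ∈ K) ∧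
    (∀ y ∈ S, ∀ U, IsOpen U → y ∈ U → ∀ᶠ n in (𝒰 : Filter ℕ), τ ≤ (μ n).real U) ∧
    (∀ y ∈ S, ∃ U, IsOpen U ∧ y ∈ U ∧ ∀ V, IsOpen V → y ∈ V → V ⊆ U →
      Tendsto (fun n => (μ n).real V) 𝒰 (𝓝 (m y))) ∧
    Tendsto (fun n => (μ n).real K) 𝒰 (𝓝 (∑ y ∈ S, m y))

/-- Selection of the scale. -/
def S_SEL : Prop := ∀ (𝒰 : Ultrafilter ℕ) (R : ℝ) (ρ : ℕ → ℂ → ℝ), 0 < R →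
  (∀ᶠ n in (𝒰 : Filter ℕ), Continuous (ρ n) ∧ HasCompactSupport (ρ n) ∧ ∀ x, 0 ≤ ρ n x) →
  ∀ m μ₀ : ℝ, 0 < μ₀ → μ₀ < m →
  (∀ r, 0 < r → r < R → Tendsto (fun n => ms (ρ n) 0 r) 𝒰 (𝓝 m)) →
  ∃ (x : ℕ → ℂ) (r : ℕ → ℝ), (∀ n, 0 < r n) ∧ Tendsto x 𝒰 (𝓝 0) ∧ Tendsto r 𝒰 (𝓝 0) ∧
    (∀ᶠ n in (𝒰 : Filter ℕ), μ₀ ≤ ms (ρ n) (x n) (r n)) ∧
    (∀ᶠ n in (𝒰 : Filter ℕ), ∀ y : ℂ, ‖y‖ ≤ R / 2 → ms (ρ n) y (r n / 2) < μ₀)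

/-- Blow-up limit without concentration points. -/
def S_LQA : Prop := ∀ (𝒰 : Ultrafilter ℕ) (Λ : ℝ) (ρ g w : ℕ → ℂ → ℝ), 0 ≤ Λ →
  IsBlow 𝒰 Λ ρ g w → (∀ y : ℂ, ∃ r : ℝ, 0 < r ∧ ∀ᶠ n in (𝒰 : Filter ℕ), ms (ρ n) y r ≤ Real.pi) →
  ∀ (m : ℝ → ℝ) (M : ℝ), (∀ s, 0 < s → Tendsto (fun n => ms (ρ n) 0 s) 𝒰 (𝓝 (m s))) →
  Tendsto m atTop (𝓝 M) → 0 < M → M = 8 * Real.pi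

/-- Blow-up limit with a concentration point. -/
def S_LQB : Prop := ∀ (𝒰 : Ultrafilter ℕ) (Λ : ℝ) (ρ g w : ℕ → ℂ → ℝ), 0 ≤ Λ →
  IsBlow 𝒰 Λ ρ g w →
  (∃ y₀ : ℂ, ∀ r : ℝ, 0 < r → ∀ᶠ n in (𝒰 : Filter ℕ), Real.pi < ms (ρ n) y₀ r) →
  (∀ (y : ℂ) (b r₀ : ℝ), 0 < b → 0 < r₀ →
    (∀ r, 0 < r → r < r₀ → Tendsto (fun n => ms (ρ n) y r) 𝒰 (𝓝 b)) →
    ∃ k : ℕ, b = 8 * Real.pi * k) →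
  ∀ (m : ℝ → ℝ) (M : ℝ), (∀ s, 0 < s → Tendsto (fun n => ms (ρ n) 0 s) 𝒰 (𝓝 (m s))) →
  Tendsto m atTop (𝓝 M) → 0 < M → ∃ k : ℕ, M = 8 * Real.pi * k

/-- Quantisation of concentrated mass: the core theorem. -/
def S_CORE : Prop := ∀ (𝒰 : Ultrafilter ℕ) (Λ R L : ℝ) (ρ g w : ℕ → ℂ → ℝ), 0 < R → 0 ≤ L →
  0 ≤ Λ → IsSeq 𝒰 Λ R L ρ g w → ∀ m : ℝ, 0 < m →
  (∀ r, 0 < r → r < R → Tendsto (fun n => ms (ρ n) 0 r) 𝒰 (𝓝 m)) → ∃ k : ℕ, m = 8 * Real.pi * k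

end Pool.Agent.W787.PS
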