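import Pool.Agent.W787.PS.Surf
import Pool.Agent.W787.PS.StmA

/-!
# Project PS: exact statements of the steps on the surface
-/

open MeasureTheory Set Metric Filter Topology
open scoped ContDiff

noncomputable section

namespace Pool.Agent.W787.PS

/-! ### Local decomposition in the plane -/

/-- Energy of the potential of a small functional. -/
def S_LOCW : Prop := ∀ ζ : ℂ → ℝ, ContDiff ℝ ∞ ζ → tsupport ζ ⊆ ball 0 4 →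
  (∀ x, 0 ≤ ζ x ∧ ζ x ≤ 1) → (∀ x ∈ closedBall (0 : ℂ) 2, ζ x = 1) →
  ∃ C : ℝ, 0 < C ∧ ∀ (f : ℂ → ℝ) (ε : ℝ), ContDiffOn ℝ ∞ f (ball 0 8) → 0 ≤ ε →
  (∀ φ : ℂ → ℝ, ContDiff ℝ ∞ φ → tsupport φ ⊆ ball 0 8 →
    |∫ x, f x * φ x| ≤ ε * Real.sqrt (∫ x, nsq φ x)) →
  ContDiff ℝ 1 (pot fun y => ζ y * f y) ∧
    ∫ x in ball (0 : ℂ) 1, nsq (pot fun y => ζ y * f y) x ≤ (C * ε) ^ 2

/-- Local decomposition `u = pot (ζ F) + g + w`. -/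
def S_LOC : Prop := ∃ (ζ : ℂ → ℝ) (C : ℝ), 0 < C ∧ ContDiff ℝ ∞ ζ ∧ tsupport ζ ⊆ ball 0 4 ∧
  (∀ x, 0 ≤ ζ x ∧ ζ x ≤ 1) ∧ (∀ x ∈ closedBall (0 : ℂ) 2, ζ x = 1) ∧
  ∀ (u F : ℂ → ℝ) (c A ε : ℝ), ContDiffOn ℝ ∞ u (ball 0 8) → ContDiffOn ℝ ∞ F (ball 0 8) →
  0 ≤ ε → ∫ x in ball (0 : ℂ) 4, |u x - c| ≤ A →
  (∀ φ : ℂ → ℝ, ContDiff ℝ ∞ φ → tsupport φ ⊆ ball 0 8 →
    |(∫ x, gdot u φ x) - (∫ x, F x * φ x)| ≤ ε * Real.sqrt (∫ x, nsq φ x)) →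
  ∃ g w : ℂ → ℝ, ContDiffOn ℝ 1 g (ball 0 1) ∧ ContDiff ℝ 1 w ∧
    (∀ x ∈ ball (0 : ℂ) 1, nsq g x ≤ (C * A) ^ 2) ∧
    (∀ x ∈ ball (0 : ℂ) 1, |g x - c| ≤ C * A) ∧
    ∫ x in ball (0 : ℂ) 1, nsq w x ≤ (C * ε) ^ 2 ∧
    ∀ x ∈ ball (0 : ℂ) 1, u x = pot (fun y => ζ y * F y) x + g x + w x

/-! ### Basic facts on the surface -/

/-- The function `gip` in an arbitrary chart; continuity. -/
def S_GIP : Prop := ∀ (M : Type) [TopologicalSpace M] [MeasurableSpace M] (X : ClosedSurface M)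
  (u v : M → ℝ), X.Smooth u → X.Smooth v → Continuous (X.gip u v) ∧
  ∀ i, ∀ x ∈ (X.chart i).source, X.gip u v x * X.dens i (X.chart i x) =
    gdot (u ∘ (X.chart i).symm) (v ∘ (X.chart i).symm) (X.chart i x)

/-- Change of variables in a chart. -/
def S_CHV : Prop := ∀ (M : Type) [TopologicalSpace M] [T2Space M] [MeasurableSpace M]
  [BorelSpace M] (X : ClosedSurface M) (i : X.ι) (f : M → ℝ) (A : Set ℂ), MeasurableSet A →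
  A ⊆ (X.chart i).target →
  (IntegrableOn f ((X.chart i).symm '' A) X.vol ↔
    IntegrableOn (fun z => f ((X.chart i).symm z) * X.dens i z) A) ∧
  ∫ x in (X.chart i).symm '' A, f x ∂X.vol = ∫ z in A, f ((X.chart i).symm z) * X.dens i z

/-- Algebra of smooth functions. -/
def S_SMO : Prop := ∀ (M : Type) [TopologicalSpace M] [MeasurableSpace M] (X : ClosedSurface M),
  (∀ u, X.Smooth u → Continuous u) ∧ (∀ c : ℝ, X.Smooth fun _ => c) ∧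
  (∀ u v, X.Smooth u → X.Smooth v → X.Smooth fun x => u x + v x) ∧
  (∀ u v, X.Smooth u → X.Smooth v → X.Smooth fun x => u x - v x) ∧
  (∀ u v, X.Smooth u → X.Smooth v → X.Smooth fun x => u x * v x) ∧
  (∀ (c : ℝ) u, X.Smooth u → X.Smooth fun x => c * u x) ∧
  (∀ (ψ : ℝ → ℝ) u, ContDiff ℝ ∞ ψ → X.Smooth u → X.Smooth (ψ ∘ u)) ∧
  (∀ u v x, X.gip u v x = X.gip v u x) ∧
  (∀ u v v' x, X.Smooth u → X.Smooth v → X.Smooth v' →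
    X.gip u (fun y => v y + v' y) x = X.gip u v x + X.gip u v' x) ∧
  (∀ u v v' x, X.Smooth u → X.Smooth v → X.Smooth v' →
    X.gip u (fun y => v y - v' y) x = X.gip u v x - X.gip u v' x) ∧
  (∀ (c : ℝ) u v x, X.Smooth u → X.Smooth v → X.gip u (fun y => c * v y) x = c * X.gip u v x) ∧
  (∀ (c : ℝ) u x, X.gip u (fun _ => c) x = 0) ∧
  (∀ u x, 0 ≤ X.gip u u x) ∧
  (∀ (ψ : ℝ → ℝ) u v x, ContDiff ℝ ∞ ψ → X.Smooth u → X.Smooth v →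
    X.gip u (ψ ∘ v) x = deriv ψ (v x) * X.gip u v x)

/-- Cauchy-Schwarz and additivity for the Dirichlet form. -/
def S_DIR : Prop := ∀ (M : Type) [TopologicalSpace M] [T2Space M] [CompactSpace M]
  [MeasurableSpace M] [BorelSpace M] (X : ClosedSurface M),
  (∀ u v, X.Smooth u → X.Smooth v → Integrable (X.gip u v) X.vol) ∧
  (∀ u v, X.Smooth u → X.Smooth v → |X.dir u v| ≤ Real.sqrt (X.dir u u) * Real.sqrt (X.dir v v)) ∧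
  (∀ u v, X.dir u v = X.dir v u) ∧
  (∀ u v v', X.Smooth u → X.Smooth v → X.Smooth v' →
    X.dir u (fun y => v y + v' y) = X.dir u v + X.dir u v') ∧
  (∀ u v v', X.Smooth u → X.Smooth v → X.Smooth v' →
    X.dir u (fun y => v y - v' y) = X.dir u v - X.dir u v') ∧
  (∀ (c : ℝ) u v, X.Smooth u → X.Smooth v → X.dir u (fun y => c * v y) = c * X.dir u v) ∧
  (∀ (c : ℝ) u, X.dir u (fun _ => c) = 0) ∧ (∀ u, 0 ≤ X.dir u u)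

/-- Existence of small disc charts around every point. -/
def S_DISC : Prop := ∀ (M : Type) [TopologicalSpace M] [T2Space M] [CompactSpace M]
  [MeasurableSpace M] [BorelSpace M] (X : ClosedSurface M) (x : M) (η : ℝ), 0 < η →
  ∃ (κ : ℂ → M) (d : ℂ → ℝ), IsDisc X κ d ∧ κ 0 = x ∧ ∀ z ∈ ball (0 : ℂ) 8, d z ≤ η

/-! ### Inequalities on the surface -/

def S_POIM : Prop := ∀ (M : Type) [TopologicalSpace M] [T2Space M] [CompactSpace M]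
  [ConnectedSpace M] [MeasurableSpace M] [BorelSpace M] (X : ClosedSurface M),
  ∃ C : ℝ, 0 < C ∧ ∀ u, X.Smooth u →
    ∫ x, (u x - ∫ y, u y ∂X.vol) ^ 2 ∂X.vol ≤ C * X.dir u u

def S_L4M : Prop := ∀ (M : Type) [TopologicalSpace M] [T2Space M] [CompactSpace M]
  [MeasurableSpace M] [BorelSpace M] (X : ClosedSurface M),
  ∃ C : ℝ, 0 < C ∧ ∀ u, X.Smooth u → ∫ x, u x ^ 4 ∂X.vol ≤ C * X.h1sq u ^ 2

def S_MTM : Prop := ∀ (M : Type) [TopologicalSpace M] [T2Space M] [CompactSpace M]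
  [MeasurableSpace M] [BorelSpace M] (X : ClosedSurface M) (q : ℝ), 0 < q →
  ∃ ε C : ℝ, 0 < ε ∧ 0 < C ∧ ∀ u, X.Smooth u → X.h1sq u ≤ ε ^ 2 →
    ∫ x, Real.exp (q * |u x|) ∂X.vol ≤ C

/-- Truncation: L¹ bound. -/
def S_TRU : Prop := ∀ (M : Type) [TopologicalSpace M] [T2Space M] [CompactSpace M]
  [ConnectedSpace M] [MeasurableSpace M] [BorelSpace M] (X : ClosedSurface M) (h : M → ℝ)
  (lam : ℝ), X.Smooth h → (∀ x, 0 < h x) → 0 < lam →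
  ∃ A : ℝ, 0 < A ∧ ∀ u ε, 0 ≤ ε → ε ≤ 1 → PSb X h lam ε u →
    ∃ c : ℝ, ∫ x, |u x - c| ∂X.vol ≤ A

/-- From a smooth almost critical function to a datum in a disc chart. -/
def S_DATA : Prop := ∀ (M : Type) [TopologicalSpace M] [T2Space M] [CompactSpace M]
  [MeasurableSpace M] [BorelSpace M] (X : ClosedSurface M) (κ : ℂ → M) (d : ℂ → ℝ),
  IsDisc X κ d → ∀ (h : M → ℝ) (lam A : ℝ), X.Smooth h → (∀ x, 0 < h x) → 0 < lam → 0 < A →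
  ∃ L C B : ℝ, 0 ≤ L ∧ 0 < C ∧ ∀ u ε c, 0 ≤ ε → ε ≤ 1 → PSb X h lam ε u →
    ∫ x, |u x - c| ∂X.vol ≤ A → ∃ ρ g w : ℂ → ℝ, IsDatum lam 1 L (C * ε) ρ g w ∧
      (∀ z ∈ ball (0 : ℂ) 1, ρ z = lam * h (κ z) * Real.exp (u (κ z)) * d z) ∧
      |avg (fun z => Real.log (ρ z)) 0 (1 / 2) - c| ≤ B

/-- The alternative: quantisation or an L² bound. -/
def S_ALT : Prop := ∀ (M : Type) [TopologicalSpace M] [T2Space M] [CompactSpace M]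
  [ConnectedSpace M] [MeasurableSpace M] [BorelSpace M] (X : ClosedSurface M) (h : M → ℝ)
  (lam : ℝ), X.Smooth h → (∀ x, 0 < h x) → 0 < lam → ∀ (𝒰 : Ultrafilter ℕ) (u : ℕ → M → ℝ),
  (∀ ε : ℝ, 0 < ε → ∀ᶠ n in (𝒰 : Filter ℕ), PSb X h lam ε (u n)) →
  (∃ k : ℕ, lam = 8 * Real.pi * k) ∨
    ∃ C : ℝ, ∀ᶠ n in (𝒰 : Filter ℕ), ∫ x, Real.exp (u n x) ^ 2 ∂X.vol ≤ C

/-- Rellich compactness along an ultrafilter. -/
def S_REL : Prop := ∀ (M : Type) [TopologicalSpace M] [T2Space M] [CompactSpace M]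
  [MeasurableSpace M] [BorelSpace M] (X : ClosedSurface M) (𝒰 : Ultrafilter ℕ) (u : ℕ → M → ℝ)
  (B : ℝ), (∀ᶠ n in (𝒰 : Filter ℕ), X.Smooth (u n) ∧ X.h1sq (u n) ≤ B) →
  ∀ ε : ℝ, 0 < ε → ∃ T ∈ (𝒰 : Filter ℕ), ∀ n ∈ T, ∀ m ∈ T,
    ∫ x, (u n x - u m x) ^ 2 ∂X.vol ≤ ε

/-- Cauchy property along the ultrafilter. -/
def S_CAU : Prop := ∀ (M : Type) [TopologicalSpace M] [T2Space M] [CompactSpace M]
  [ConnectedSpace M] [MeasurableSpace M] [BorelSpace M] (X : ClosedSurface M) (h : M → ℝ)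
  (lam : ℝ), X.Smooth h → (∀ x, 0 < h x) → 0 < lam → ∀ (𝒰 : Ultrafilter ℕ) (u : ℕ → M → ℝ) (C : ℝ),
  (∀ ε : ℝ, 0 < ε → ∀ᶠ n in (𝒰 : Filter ℕ), PSb X h lam ε (u n)) →
  (∀ᶠ n in (𝒰 : Filter ℕ), ∫ x, Real.exp (u n x) ^ 2 ∂X.vol ≤ C) →
  ∀ ε : ℝ, 0 < ε → ∃ T ∈ (𝒰 : Filter ℕ), ∀ n ∈ T, ∀ m ∈ T,
    X.h1sq (fun x => u n x - u m x) ≤ ε

/-- The Palais-Smale property for smooth sequences. -/
def S_PSS : Prop := ∀ (M : Type) [TopologicalSpace M] [T2Space M] [CompactSpace M]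
  [ConnectedSpace M] [MeasurableSpace M] [BorelSpace M] (X : ClosedSurface M) (h : M → ℝ)
  (lam : ℝ), X.Smooth h → (∀ x, 0 < h x) → 0 < lam → (∀ k : ℕ, lam ≠ 8 * Real.pi * k) →
  ∀ (𝒰 : Ultrafilter ℕ) (u : ℕ → M → ℝ),
  (∀ ε : ℝ, 0 < ε → ∀ᶠ n in (𝒰 : Filter ℕ), PSb X h lam ε (u n)) →
  ∀ ε : ℝ, 0 < ε → ∃ T ∈ (𝒰 : Filter ℕ), ∀ n ∈ T, ∀ m ∈ T,
    X.h1sq (fun x => u n x - u m x) ≤ ε

end Pool.Agent.W787.PS
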