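import Pool.Agent.W787.PS.Defs

/-!
# Closed Riemannian surfaces in isothermal charts
-/

open MeasureTheory Set Metric Filter Topology
open scoped ContDiff

noncomputable section

namespace Pool.Agent.W787.PS

/-- A closed Riemannian surface of unit area, given by isothermal charts: a family of charts with
smooth transition maps and, in every chart, a smooth positive density `dens i` such that the metric
is `dens i z * |dz| ^ 2`; the transition maps are isometries of these metrics (`trans_isom`), and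
`vol` is the Riemannian measure (`vol_chart`). It is used for compact connected Hausdorff spaces
`M`. -/
structure ClosedSurface (M : Type) [TopologicalSpace M] [MeasurableSpace M] where
  ι : Type
  chart : ι → OpenPartialHomeomorph M ℂ
  cover : ∀ x : M, ∃ i, x ∈ (chart i).source
  dens : ι → ℂ → ℝ
  dens_pos : ∀ i, ∀ z ∈ (chart i).target, 0 < dens i z
  dens_smooth : ∀ i, ContDiffOn ℝ ∞ (dens i) (chart i).target
  trans_smooth : ∀ i j, ContDiffOn ℝ ∞ (chart j ∘ (chart i).symm)
    ((chart i).symm.trans (chart j)).source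
  trans_isom : ∀ i j, ∀ z ∈ ((chart i).symm.trans (chart j)).source, ∀ v : ℂ,
    dens j (chart j ((chart i).symm z)) * ‖fderiv ℝ (chart j ∘ (chart i).symm) z v‖ ^ 2
      = dens i z * ‖v‖ ^ 2
  vol : Measure M
  vol_chart : ∀ i, ∀ A : Set M, MeasurableSet A → A ⊆ (chart i).source →
    vol A = ∫⁻ z in chart i '' A, ENNReal.ofReal (dens i z)
  vol_univ : vol univ = 1

namespace ClosedSurface

variable {M : Type} [TopologicalSpace M] [MeasurableSpace M] (X : ClosedSurface M)

/-- Smooth functions on the surface. -/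
def Smooth (u : M → ℝ) : Prop := ∀ i, ContDiffOn ℝ ∞ (u ∘ (X.chart i).symm) (X.chart i).target

/-- A chart around a point. -/
def idx (x : M) : X.ι := Classical.choose (X.cover x)

/-- The Riemannian inner product of the gradients of two functions, computed in a chart. -/
def gip (u v : M → ℝ) (x : M) : ℝ :=
  gdot (u ∘ (X.chart (X.idx x)).symm) (v ∘ (X.chart (X.idx x)).symm) (X.chart (X.idx x) x)
    / X.dens (X.idx x) (X.chart (X.idx x) x)

/-- Dirichlet form of two smooth functions. -/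
def dir (u v : M → ℝ) : ℝ := ∫ x, X.gip u v x ∂X.vol

/-- Square of the H¹ norm of a smooth function. -/
def h1sq (u : M → ℝ) : ℝ := ∫ x, u x ^ 2 ∂X.vol + X.dir u u

end ClosedSurface

/-- `u` is smooth, normalised, and the derivative of the functional at `u` has norm at most `ε`
(tested on smooth functions). -/
structure PSb {M : Type} [TopologicalSpace M] [MeasurableSpace M] (X : ClosedSurface M)
    (h : M → ℝ) (lam ε : ℝ) (u : M → ℝ) : Prop where
  smooth : X.Smooth u
  norm : ∫ x, h x * Real.exp (u x) ∂X.vol = 1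
  bd : ∀ φ, X.Smooth φ → |X.dir u φ + lam * ∫ x, φ x ∂X.vol
    - lam * ∫ x, h x * Real.exp (u x) * φ x ∂X.vol| ≤ ε * Real.sqrt (X.h1sq φ)

/-- Disc charts: parametrisations `κ` of an open subset of the surface by the disc of radius 8,
in which the metric is `d z * |dz|^2` with `d` bounded above and below. -/
structure IsDisc {M : Type} [TopologicalSpace M] [MeasurableSpace M] (X : ClosedSurface M)
    (κ : ℂ → M) (d : ℂ → ℝ) : Prop where
  inj : InjOn κ (ball 0 8)
  cont : ContinuousOn κ (ball 0 8)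
  isOpen : ∀ U, IsOpen U → U ⊆ ball 0 8 → IsOpen (κ '' U)
  d_smooth : ContDiffOn ℝ ∞ d (ball 0 8)
  d_bd : ∃ c C : ℝ, 0 < c ∧ ∀ z ∈ ball (0 : ℂ) 8, c ≤ d z ∧ d z ≤ C
  smooth : ∀ u, X.Smooth u → ContDiffOn ℝ ∞ (u ∘ κ) (ball 0 8)
  intg : ∀ (f : M → ℝ) (A : Set ℂ), MeasurableSet A → A ⊆ ball 0 8 →
    (IntegrableOn f (κ '' A) X.vol ↔ IntegrableOn (fun z => f (κ z) * d z) A) ∧
    ∫ x in κ '' A, f x ∂X.vol = ∫ z in A, f (κ z) * d z
  gip : ∀ u v, X.Smooth u → X.Smooth v → ∀ z ∈ ball (0 : ℂ) 8,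
    X.gip u v (κ z) * d z = gdot (u ∘ κ) (v ∘ κ) z
  ext : ∀ φ : ℂ → ℝ, ContDiff ℝ ∞ φ → tsupport φ ⊆ ball 0 8 →
    ∃ Φ : M → ℝ, X.Smooth Φ ∧ (∀ z ∈ ball (0 : ℂ) 8, Φ (κ z) = φ z) ∧
      ∀ x, x ∉ κ '' tsupport φ → Φ x = 0

end Pool.Agent.W787.PS
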